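import Pool.Agent.MP_ff3a4f_co.pl.Spec

/-!
# The core count for points in the plane with a fixed vertical direction
-/

set_option autoImplicit false

namespace Pool.Agent.MP_ff3a4f_co.Pl

open Finset Filter Topology
open scoped Classical

lemma card_prod_filter {ι κ : Type} (s : Finset ι) (u : Finset κ) (P : ι × κ → Prop)
    [DecidablePred P] : #{t ∈ s ×ˢ u | P t} = ∑ b ∈ s, #{e ∈ u | P (b, e)} := by
  simp only [card_filter, sum_product]

lemma side (hY : YoungS) {ι : Type} (A B : Finset ι) (R L : ι → ι → Prop) (τ : ι → ι → ℝ)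
    (Γ : ι → ι → Prop) (K Δ : ℕ)
    (injR : ∀ b ∈ B, ∀ a ∈ A, ∀ a' ∈ A, R b a → R b a' → τ b a = τ b a' → a = a')
    (injL : ∀ b ∈ B, ∀ a ∈ A, ∀ a' ∈ A, L b a → L b a' → τ b a = τ b a' → a = a')
    (hs : ∀ p q, Γ p q → Γ q p) (deg : ∀ p ∈ A, #{a ∈ A | Γ p a} ≤ Δ) :
    #{e ∈ B ×ˢ A | R e.1 e.2 ∧ #{a ∈ A | R e.1 a ∧ τ e.1 a < τ e.1 e.2} < K ∧
      K ≤ #{a ∈ A | L e.1 a ∧ τ e.1 e.2 < τ e.1 a} + #{a ∈ A | R e.1 a ∧ τ e.1 a < τ e.1 e.2}} *
        (K + 1 - 2 * Δ) ≤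
      2 * #{t ∈ B ×ˢ (A ×ˢ A) | R t.1 t.2.1 ∧ L t.1 t.2.2 ∧ τ t.1 t.2.1 < τ t.1 t.2.2 ∧
        ¬ Γ t.2.1 t.2.2} := by
  rw [card_prod_filter B A, card_prod_filter B (A ×ˢ A), sum_mul, mul_sum]
  refine sum_le_sum fun b hb => ?_
  have h := hY ι {a ∈ A | R b a} {a ∈ A | L b a}
    {x ∈ A | R b x ∧ #{a ∈ A | R b a ∧ τ b a < τ b x} < K ∧
      K ≤ #{a ∈ A | L b a ∧ τ b x < τ b a} + #{a ∈ A | R b a ∧ τ b a < τ b x}} (τ b) Γ K Δ
    (fun a ha a' ha' h => by
      simp only [coe_filter, Set.mem_ofPred_eq] at ha ha'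
      exact injR b hb a ha.1 a' ha'.1 ha.2 ha'.2 h)
    (fun a ha a' ha' h => by
      simp only [coe_filter, Set.mem_ofPred_eq] at ha ha'
      exact injL b hb a ha.1 a' ha'.1 ha.2 ha'.2 h)
    (fun x hx => (card_le_card (filter_subset_filter _ (filter_subset _ _))).trans
      (deg x (mem_filter.1 hx).1))
    (fun a ha => le_trans (card_le_card fun x hx => by
      simp only [mem_filter] at hx ⊢
      exact ⟨hx.1.1, hs _ _ hx.2⟩) (deg a (mem_filter.1 ha).1))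
    (fun x hx => by
      simp only [mem_filter] at hx ⊢
      exact ⟨hx.1, hx.2.1⟩)
    (fun x hx => by
      simp only [filter_filter]
      exact (mem_filter.1 hx).2.2)
  have e : #{e ∈ {a ∈ A | R b a} ×ˢ {a ∈ A | L b a} | τ b e.1 < τ b e.2 ∧ ¬ Γ e.1 e.2} =
      #{e ∈ A ×ˢ A | R b e.1 ∧ L b e.2 ∧ τ b e.1 < τ b e.2 ∧ ¬ Γ e.1 e.2} := by
    congr 1
    ext e
    simp only [mem_filter, mem_product]
    tauto
  rw [e] at h
  rw [Nat.mul_sub, tsub_le_iff_right, mul_comm _ (2 * Δ)]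
  exact h

/-- One-dimensional crossing level. -/
lemma level {ι : Type} (A B : Finset ι) (f : ι → ℝ) {K : ℕ} (hK : 0 < K)
    (h : ∀ c, K ≤ #{a ∈ A | c ≤ f a} ∨ K ≤ #{b ∈ B | f b ≤ c}) :
    ∃ c, K ≤ #{a ∈ A | c ≤ f a} ∧ K ≤ #{b ∈ B | f b ≤ c} := by
  have hU : IsClosed {c : ℝ | K ≤ #{a ∈ A | c ≤ f a}} := by
    rw [← isOpen_compl_iff, isOpen_iff_mem_nhds]
    intro c hc
    have h1 : ∀ᶠ c' in 𝓝 c, ∀ a ∈ A, f a < c → f a < c' := by
      rw [eventually_all_finset]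
      intro a _
      by_cases ha : f a < c
      · exact (lt_mem_nhds ha).mono fun c' h' _ => h'
      · exact Eventually.of_forall fun c' h' => absurd h' ha
    filter_upwards [h1] with c' hc' h2
    refine hc (le_trans h2 (card_le_card fun a ha => ?_))
    rw [mem_filter] at ha ⊢
    exact ⟨ha.1, not_lt.1 fun h3 => absurd (hc' a ha.1 h3) (not_lt.2 ha.2)⟩
  have hV : IsClosed {c : ℝ | K ≤ #{b ∈ B | f b ≤ c}} := by
    rw [← isOpen_compl_iff, isOpen_iff_mem_nhds]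
    intro c hc
    have h1 : ∀ᶠ c' in 𝓝 c, ∀ a ∈ B, c < f a → c' < f a := by
      rw [eventually_all_finset]
      intro a _
      by_cases ha : c < f a
      · exact (gt_mem_nhds ha).mono fun c' h' _ => h'
      · exact Eventually.of_forall fun c' h' => absurd h' ha
    filter_upwards [h1] with c' hc' h2
    refine hc (le_trans h2 (card_le_card fun a ha => ?_))
    rw [mem_filter] at ha ⊢
    exact ⟨ha.1, not_lt.1 fun h3 => absurd (hc' a ha.1 h3) (not_lt.2 ha.2)⟩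
  obtain ⟨M, hM⟩ := ((A ∪ B).image fun p => |f p|).bddAbove
  have hM' : ∀ p ∈ A ∪ B, |f p| ≤ M := fun p hp => hM (mem_coe.2 (mem_image_of_mem _ hp))
  have h1 : K ≤ #{a ∈ A | -M - 1 ≤ f a} := (h (-M - 1)).resolve_right fun h2 => by
    obtain ⟨b, hb⟩ := card_pos.1 (hK.trans_le h2)
    rw [mem_filter] at hb
    linarith [(abs_le.1 (hM' b (mem_union_right _ hb.1))).1, hb.2]
  have h2 : K ≤ #{b ∈ B | f b ≤ M + 1} := (h (M + 1)).resolve_left fun h2 => by
    obtain ⟨a, ha⟩ := card_pos.1 (hK.trans_le h2)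
    rw [mem_filter] at ha
    linarith [(abs_le.1 (hM' a (mem_union_left _ ha.1))).2, ha.2]
  obtain ⟨c, -, hc⟩ := isPreconnected_closed_iff.1 (isPreconnected_univ (α := ℝ)) _ _ hU hV
    (fun c _ => h c) ⟨_, Set.mem_univ _, h1⟩ ⟨_, Set.mem_univ _, h2⟩
  exact ⟨c, hc⟩

/-- The hypothesis on a line through a point of `A` and a point of `B` to its right. -/
lemma strict {ι : Type} (A B : Finset ι) (x y : ι → ℝ) {K : ℕ}
    (h : ∀ σ c : ℝ, K ≤ #{a ∈ A | c ≤ y a - σ * x a} ∨ K ≤ #{b ∈ B | y b - σ * x b ≤ c})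
    {σ c m : ℝ} (hA : ∀ a ∈ A, y a - σ * x a = c → x a < m)
    (hB : ∀ b ∈ B, y b - σ * x b = c → m < x b) :
    K ≤ #{a ∈ A | c < y a - σ * x a} ∨ K ≤ #{b ∈ B | y b - σ * x b < c} := by
  have h1 : ∀ᶠ t in 𝓝[>] (0 : ℝ), ∀ a ∈ A, y a - σ * x a ≤ c →
      y a - (σ - t) * x a < c + t * m := by
    rw [eventually_all_finset]
    intro a ha
    rcases lt_trichotomy (y a - σ * x a) c with h2 | h2 | h2
    · have c1 : ContinuousAt (fun t : ℝ => c + t * m - (y a - (σ - t) * x a)) 0 := by fun_prop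
      have h3 := c1.eventually (lt_mem_nhds (a := 0) (by simp only; linarith))
      exact (h3.filter_mono nhdsWithin_le_nhds).mono fun t ht _ => by linarith
    · filter_upwards [self_mem_nhdsWithin] with t ht _
      have := mul_pos (show (0 : ℝ) < t from ht) (sub_pos.2 (hA a ha h2))
      linarith
    · exact Eventually.of_forall fun t h3 => absurd h2 (not_lt.2 h3)
  have h2 : ∀ᶠ t in 𝓝[>] (0 : ℝ), ∀ b ∈ B, c ≤ y b - σ * x b →
      c + t * m < y b - (σ - t) * x b := by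
    rw [eventually_all_finset]
    intro a ha
    rcases lt_trichotomy c (y a - σ * x a) with h2 | h2 | h2
    · have c1 : ContinuousAt (fun t : ℝ => y a - (σ - t) * x a - (c + t * m)) 0 := by fun_prop
      have h3 := c1.eventually (lt_mem_nhds (a := 0) (by simp only; linarith))
      exact (h3.filter_mono nhdsWithin_le_nhds).mono fun t ht _ => by linarith
    · filter_upwards [self_mem_nhdsWithin] with t ht _
      have := mul_pos (show (0 : ℝ) < t from ht) (sub_pos.2 (hB a ha h2.symm))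
      linarith
    · exact Eventually.of_forall fun t h3 => absurd h2 (not_lt.2 h3)
  obtain ⟨t, ht1, ht2⟩ := (h1.and h2).exists
  refine (h (σ - t) (c + t * m)).imp (fun h3 => h3.trans (card_le_card fun a ha => ?_))
    (fun h3 => h3.trans (card_le_card fun a ha => ?_))
  · rw [mem_filter] at ha ⊢
    exact ⟨ha.1, not_le.1 fun h4 => absurd (ht1 a ha.1 h4) (not_lt.2 ha.2)⟩
  · rw [mem_filter] at ha ⊢
    exact ⟨ha.1, not_le.1 fun h4 => absurd (ht2 a ha.1 h4) (not_lt.2 ha.2)⟩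

/-- The slope of the line through two points. -/
noncomputable def sl {ι : Type} (x y : ι → ℝ) (p q : ι) : ℝ := (y p - y q) / (x p - x q)

lemma sl_comm {ι : Type} (x y : ι → ℝ) (p q : ι) : sl x y p q = sl x y q p := by
  unfold sl
  rw [← neg_sub (y q), ← neg_sub (x q), neg_div_neg_eq]

lemma sl_mul {ι : Type} (x y : ι → ℝ) {p q : ι} (h : x p ≠ x q) :
    sl x y p q * (x p - x q) = y p - y q := div_mul_cancel₀ _ (sub_ne_zero.2 h)

theorem core (hG : GraphS) (hY : YoungS) {ι : Type} [DecidableEq ι] (A B : Finset ι)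
    (x y : ι → ℝ)
    (Γ : ι → ι → Prop) (K Δ : ℕ) (hAB : Disjoint A B)
    (gp : ∀ p ∈ A ∪ B, ∀ q ∈ A ∪ B, ∀ r ∈ A ∪ B, p ≠ q → p ≠ r → q ≠ r →
      (x q - x p) * (y r - y p) ≠ (x r - x p) * (y q - y p))
    (tie : ∀ a ∈ A, ∀ b ∈ B, x a = x b → y b ≤ y a → Γ a b)
    (hs : ∀ p q, Γ p q → Γ q p) (deg : ∀ p ∈ A ∪ B, #{q ∈ A ∪ B | Γ p q} ≤ Δ)
    (hyp : ∀ σ c : ℝ, K ≤ #{a ∈ A | c ≤ y a - σ * x a} ∨ K ≤ #{b ∈ B | y b - σ * x b ≤ c}) :
    (K - Δ) ^ 2 * (K - Δ + 1 - 2 * Δ) ≤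
      2 * (#{t ∈ B ×ˢ (A ×ˢ A) | (x t.2.1 < x t.1 ∧ ¬ Γ t.1 t.2.1) ∧
          (x t.1 < x t.2.2 ∧ ¬ Γ t.1 t.2.2) ∧ sl x y t.1 t.2.1 < sl x y t.1 t.2.2 ∧
          ¬ Γ t.2.1 t.2.2} +
        #{t ∈ A ×ˢ (B ×ˢ B) | (x t.1 < x t.2.1 ∧ ¬ Γ t.1 t.2.1) ∧
          (x t.2.2 < x t.1 ∧ ¬ Γ t.1 t.2.2) ∧ sl x y t.1 t.2.1 < sl x y t.1 t.2.2 ∧
          ¬ Γ t.2.1 t.2.2}) := by
  rcases le_or_gt K Δ with hK | hK
  · simp [Nat.sub_eq_zero_of_le hK]
  have ne : ∀ a ∈ A, ∀ b ∈ B, a ≠ b := fun a ha b hb h => disjoint_left.1 hAB ha (h ▸ hb)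
  have mA : ∀ a ∈ A, a ∈ A ∪ B := fun a ha => mem_union_left _ ha
  have mB : ∀ b ∈ B, b ∈ A ∪ B := fun a ha => mem_union_right _ ha
  have inj : ∀ p ∈ A ∪ B, ∀ q ∈ A ∪ B, ∀ r ∈ A ∪ B, x p ≠ x q → x p ≠ x r →
      sl x y p q = sl x y p r → q = r := fun p hp q hq r hr h1 h2 h => by
    by_contra h3
    refine gp p hp q hq r hr (fun e => h1 (e ▸ rfl)) (fun e => h2 (e ▸ rfl)) h3 ?_
    have e1 := sl_mul x y h1
    have e2 := sl_mul x y h2
    rw [h] at e1
    linear_combination (x q - x p) * e2 - (x r - x p) * e1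
  have degA : ∀ p ∈ A ∪ B, #{q ∈ A | Γ p q} ≤ Δ := fun p hp =>
    (card_le_card (filter_subset_filter _ subset_union_left)).trans (deg p hp)
  have degB : ∀ p ∈ A ∪ B, #{q ∈ B | Γ p q} ≤ Δ := fun p hp =>
    (card_le_card (filter_subset_filter _ subset_union_right)).trans (deg p hp)
  have s1 := side hY A B (fun b a => x a < x b ∧ ¬ Γ b a) (fun b a => x b < x a ∧ ¬ Γ b a)
    (sl x y) Γ (K - Δ) Δ
    (fun b hb a ha a' ha' h1 h2 => inj b (mB b hb) a (mA a ha) a' (mA a' ha') h1.1.ne' h2.1.ne')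
    (fun b hb a ha a' ha' h1 h2 => inj b (mB b hb) a (mA a ha) a' (mA a' ha') h1.1.ne h2.1.ne)
    hs (fun p hp => degA p (mA p hp))
  have s2 := side hY B A (fun a b => x a < x b ∧ ¬ Γ a b) (fun a b => x b < x a ∧ ¬ Γ a b)
    (sl x y) Γ (K - Δ) Δ
    (fun b hb a ha a' ha' h1 h2 => inj b (mA b hb) a (mB a ha) a' (mB a' ha') h1.1.ne h2.1.ne)
    (fun b hb a ha a' ha' h1 h2 => inj b (mA b hb) a (mB a ha) a' (mB a' ha') h1.1.ne' h2.1.ne')
    hs (fun p hp => degB p (mB p hp))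
  -- far right
  obtain ⟨σ, hσ⟩ : ∃ σ : ℝ, ∀ a ∈ A, ∀ b ∈ B, sl x y a b < σ := by
    obtain ⟨M, hM⟩ := ((A ×ˢ B).image fun e => sl x y e.1 e.2).bddAbove
    refine ⟨M + 1, fun a ha b hb => ?_⟩
    have : sl x y a b ≤ M :=
      hM (mem_coe.2 (mem_image.2 ⟨(a, b), mem_product.2 ⟨ha, hb⟩, rfl⟩))
    linarith
  obtain ⟨c, hc1, hc2⟩ := level A B (fun p => y p - σ * x p) (by omega : 0 < K) (hyp σ)
  have far : ∀ a ∈ A, ∀ b ∈ B, c ≤ y a - σ * x a → y b - σ * x b ≤ c → ¬ Γ a b → x a < x b := by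
    intro a ha b hb h1 h2 h3
    rcases lt_trichotomy (x a) (x b) with h | h | h
    · exact h
    · exact absurd (tie a ha b hb h (by rw [h] at h1; linarith)) h3
    · have e := sl_mul x y h.ne'
      have := mul_pos (sub_pos.2 (hσ a ha b hb)) (sub_pos.2 h)
      nlinarith
  have g := hG ι A B (fun a b => x a < x b ∧ ¬ Γ a b) (sl x y) (K - Δ)
    (by
      refine (Nat.sub_le _ _).trans (hc1.trans (card_le_card fun a ha => ?_))
      rw [mem_filter] at ha ⊢
      refine ⟨ha.1, ?_⟩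
      have h1 : #{b ∈ B | y b - σ * x b ≤ c} ≤
          #{b ∈ B | x a < x b ∧ ¬ Γ a b} + #{b ∈ B | Γ a b} := by
        refine le_trans (card_le_card fun b hb => ?_) (card_union_le _ _)
        simp only [mem_filter, mem_union] at hb ⊢
        by_cases h : Γ a b
        · exact Or.inr ⟨hb.1, h⟩
        · exact Or.inl ⟨hb.1, far a ha.1 b hb.1 ha.2 hb.2 h, h⟩
      have h2 := degB a (mA a ha.1)
      convert (show K - Δ ≤ #{b ∈ B | x a < x b ∧ ¬ Γ a b} by omega))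
    (by
      refine (Nat.sub_le _ _).trans (hc2.trans (card_le_card fun b hb => ?_))
      rw [mem_filter] at hb ⊢
      refine ⟨hb.1, ?_⟩
      have h1 : #{a ∈ A | c ≤ y a - σ * x a} ≤
          #{a ∈ A | x a < x b ∧ ¬ Γ a b} + #{a ∈ A | Γ b a} := by
        refine le_trans (card_le_card fun a ha => ?_) (card_union_le _ _)
        simp only [mem_filter, mem_union] at ha ⊢
        by_cases h : Γ a b
        · exact Or.inr ⟨ha.1, hs _ _ h⟩
        · exact Or.inl ⟨ha.1, far a ha.1 b hb.1 ha.2 hb.2 h, h⟩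
      have h2 := degA b (mB b hb.1)
      convert (show K - Δ ≤ #{a ∈ A | x a < x b ∧ ¬ Γ a b} by omega))
  -- births
  have birth : ∀ a ∈ A, ∀ b ∈ B, x a < x b →
      K - Δ ≤ #{a' ∈ A | (x b < x a' ∧ ¬ Γ b a') ∧ sl x y b a < sl x y b a'} +
        #{a' ∈ A | (x a' < x b ∧ ¬ Γ b a') ∧ sl x y b a' < sl x y b a} ∨
      K - Δ ≤ #{b' ∈ B | (x b' < x a ∧ ¬ Γ a b') ∧ sl x y a b < sl x y a b'} +
        #{b' ∈ B | (x a < x b' ∧ ¬ Γ a b') ∧ sl x y a b' < sl x y a b} := by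
    intro a ha b hb hab
    have e0 := sl_mul x y hab.ne
    have h := strict A B x y hyp (σ := sl x y a b) (c := y b - sl x y a b * x b)
      (m := (x a + x b) / 2)
      (fun a' ha' h => by
        by_cases h1 : a' = a
        · rw [h1]; linarith
        · exact absurd (by linear_combination (x a' - x b) * e0 + (x a - x b) * h)
            (gp b (mB b hb) a (mA a ha) a' (mA a' ha') (ne a ha b hb).symm (ne a' ha' b hb).symm
              (Ne.symm h1)))
      (fun b' hb' h => by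
        by_cases h1 : b' = b
        · rw [h1]; linarith
        · exact absurd (by linear_combination (x b' - x b) * e0 + (x a - x b) * h)
            (gp b (mB b hb) a (mA a ha) b' (mB b' hb') (ne a ha b hb).symm (Ne.symm h1)
              (ne a ha b' hb')))
    refine h.imp (fun h1 => ?_) (fun h1 => ?_)
    · have h2 : #{a' ∈ A | y b - sl x y a b * x b < y a' - sl x y a b * x a'} ≤
          #{a' ∈ A | (x b < x a' ∧ ¬ Γ b a') ∧ sl x y b a < sl x y b a'} +
          #{a' ∈ A | (x a' < x b ∧ ¬ Γ b a') ∧ sl x y b a' < sl x y b a} +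
          #{a' ∈ A | Γ b a'} := by
        refine le_trans (card_le_card fun p hp => ?_)
          ((card_union_le _ _).trans (Nat.add_le_add_right (card_union_le _ _) _))
        simp only [mem_filter, mem_union] at hp ⊢
        by_cases h3 : Γ b p
        · exact Or.inr ⟨hp.1, h3⟩
        rw [sl_comm x y b a]
        rcases lt_trichotomy (x b) (x p) with h4 | h4 | h4
        · refine Or.inl (Or.inl ⟨hp.1, ⟨h4, h3⟩, ?_⟩)
          have e := sl_mul x y h4.ne
          by_contra h5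
          nlinarith [mul_nonneg (sub_nonneg.2 (not_lt.1 h5)) (sub_pos.2 h4).le, hp.2]
        · exact absurd (hs _ _ (tie p hp.1 b hb h4.symm (by
            have := hp.2; rw [h4] at this; linarith))) h3
        · refine Or.inl (Or.inr ⟨hp.1, ⟨h4, h3⟩, ?_⟩)
          have e := sl_mul x y h4.ne'
          by_contra h5
          nlinarith [mul_nonneg (sub_nonneg.2 (not_lt.1 h5)) (sub_pos.2 h4).le, hp.2]
      have h3 := degA b (mB b hb)
      omega
    · have h2 : #{b' ∈ B | y b' - sl x y a b * x b' < y b - sl x y a b * x b} ≤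
          #{b' ∈ B | (x b' < x a ∧ ¬ Γ a b') ∧ sl x y a b < sl x y a b'} +
          #{b' ∈ B | (x a < x b' ∧ ¬ Γ a b') ∧ sl x y a b' < sl x y a b} +
          #{b' ∈ B | Γ a b'} := by
        refine le_trans (card_le_card fun p hp => ?_)
          ((card_union_le _ _).trans (Nat.add_le_add_right (card_union_le _ _) _))
        simp only [mem_filter, mem_union] at hp ⊢
        by_cases h3 : Γ a p
        · exact Or.inr ⟨hp.1, h3⟩
        rcases lt_trichotomy (x p) (x a) with h4 | h4 | h4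
        · refine Or.inl (Or.inl ⟨hp.1, ⟨h4, h3⟩, ?_⟩)
          have e := sl_mul x y h4.ne'
          by_contra h5
          nlinarith [mul_nonneg (sub_nonneg.2 (not_lt.1 h5)) (sub_pos.2 h4).le, hp.2]
        · exact absurd (tie a ha p hp.1 h4.symm (by
            have := hp.2; rw [h4] at this; linarith)) h3
        · refine Or.inl (Or.inr ⟨hp.1, ⟨h4, h3⟩, ?_⟩)
          have e := sl_mul x y h4.ne
          by_contra h5
          nlinarith [mul_nonneg (sub_nonneg.2 (not_lt.1 h5)) (sub_pos.2 h4).le, hp.2]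
      have h3 := degB a (mA a ha)
      omega
  rw [mul_add]
  refine le_trans ?_ (Nat.add_le_add (by convert s1) (by convert s2))
  rw [← add_mul]
  refine Nat.mul_le_mul_right _ (g.trans ?_)
  refine le_trans ?_ (Nat.add_le_add_right (card_map (Equiv.prodComm ι ι).toEmbedding).le _)
  refine le_trans (card_le_card fun e he => ?_) (card_union_le _ _)
  simp only [mem_filter, mem_product] at he
  obtain ⟨⟨ha, hb⟩, ⟨h1, h2⟩, h3, h4⟩ := he
  simp only [mem_union, mem_map_equiv, mem_filter, mem_product, Equiv.prodComm_symm,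
    Equiv.prodComm_apply, Prod.fst_swap, Prod.snd_swap]
  rcases birth e.1 ha e.2 hb h1 with h | h
  · refine Or.inl ⟨⟨hb, ha⟩, ⟨h1, fun h5 => h2 (hs _ _ h5)⟩, lt_of_eq_of_lt ?_ h3, by convert h⟩
    congr 1
    ext a
    simp only [mem_filter, sl_comm x y e.2]
    exact ⟨fun h5 => ⟨h5.1, ⟨h5.2.1.1, fun h6 => h5.2.1.2 (hs _ _ h6)⟩, h5.2.2⟩,
      fun h5 => ⟨h5.1, ⟨h5.2.1.1, fun h6 => h5.2.1.2 (hs _ _ h6)⟩, h5.2.2⟩⟩
  · exact Or.inr ⟨⟨ha, hb⟩, ⟨h1, h2⟩, by convert h4, by convert h⟩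

end Pool.Agent.MP_ff3a4f_co.Pl
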