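import Pool.Agent.MP_ff3a4f_co.pl.Spec

/-! Affine dependencies of five points in the plane. -/

set_option autoImplicit false

namespace Pool.Agent.MP_ff3a4f_co.Pl

open Finset Pool.Agent.MP_ff3a4f_co.Kirchberger
open scoped Classical

namespace DepL

variable {A B F : Finset P2} {w : P2 → ℝ} {α : P2}

/-- an affine dependency -/
def Dp (F : Finset P2) (w : P2 → ℝ) : Prop := ∑ p ∈ F, w p = 0 ∧ ∑ p ∈ F, w p • p = 0

/-- signs that conform to the colouring -/
def Cf (A B F : Finset P2) (w : P2 → ℝ) : Prop :=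
  ∀ p ∈ F, (p ∈ A → 0 ≤ w p) ∧ (p ∈ B → w p ≤ 0)

theorem Dp.lin {u : P2 → ℝ} (h : Dp F w) (h' : Dp F u) (s t : ℝ) :
    Dp F fun p => s * w p - t * u p := by
  constructor
  · rw [sum_sub_distrib, ← mul_sum, ← mul_sum, h.1, h'.1]
    simp
  · simp only [sub_smul, mul_smul, sum_sub_distrib, ← smul_sum, h.2, h'.2]
    simp

theorem bad_of (hF : F ⊆ A ∪ B) (hd : Dp F w) (hc : Cf A B F w) (h0 : w α = 0)
    (hq : ∃ q ∈ F, w q ≠ 0) : Bad A B (F.erase α) := by
  rintro ⟨v, c, -, h1, h2⟩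
  obtain ⟨q, hq, hq'⟩ := hq
  have key : ∀ p ∈ F, w p ≠ 0 → 0 < w p * (inner ℝ v p - c) := fun p hp hw => by
    have hp' : p ∈ F.erase α := mem_erase.2 ⟨fun e => hw (e ▸ h0), hp⟩
    rcases mem_union.1 (hF hp) with h | h
    · exact mul_pos (((hc p hp).1 h).lt_of_ne' hw) (sub_pos.2 (h1 p (mem_inter.2 ⟨h, hp'⟩)))
    · exact mul_pos_of_neg_of_neg (((hc p hp).2 h).lt_of_ne hw)
        (sub_neg.2 (h2 p (mem_inter.2 ⟨h, hp'⟩)))
  have h3 : 0 < ∑ p ∈ F, w p * (inner ℝ v p - c) := sum_pos' (fun p hp => by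
    by_cases hw : w p = 0
    · simp [hw]
    · exact (key p hp hw).le) ⟨q, hq, key q hq hq'⟩
  simp only [mul_sub, sum_sub_distrib, ← sum_mul, ← real_inner_smul_right, ← inner_sum, hd.1,
    hd.2] at h3
  simp at h3

theorem of_bad (hAB : Disjoint A B) (h : Bad A B (F.erase α)) :
    ∃ w, Dp F w ∧ Cf A B F w ∧ w α = 0 ∧ ∃ q ∈ F, w q ≠ 0 := by
  have h1 : ¬ Disjoint (convexHull ℝ ((B ∩ F.erase α : Finset P2) : Set P2))
      (convexHull ℝ ((A ∩ F.erase α : Finset P2) : Set P2)) := fun hd => by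
    obtain ⟨f, u, v, hu, huv, hv⟩ := geometric_hahn_banach_compact_closed
      (convex_convexHull ℝ _) ((finite_toSet _).isCompact_convexHull ℝ) (convex_convexHull ℝ _)
      ((finite_toSet _).isClosed_convexHull ℝ) hd
    refine h (separated_of_weak (by norm_num) _ _ ((InnerProductSpace.toDual ℝ _).symm f) u
      (fun p hp => ?_) fun p hp => ?_) <;> rw [InnerProductSpace.toDual_symm_apply]
    · exact huv.trans (hv p (subset_convexHull ℝ _ hp))
    · exact hu p (subset_convexHull ℝ _ hp)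
  obtain ⟨x, hb, ha⟩ := Set.not_disjoint_iff.1 h1
  obtain ⟨a, a0, a1, a2⟩ := Finset.mem_convexHull'.1 ha
  obtain ⟨b, b0, b1, b2⟩ := Finset.mem_convexHull'.1 hb
  have e : ∀ C : Finset P2, F ∩ (C ∩ F.erase α) = C ∩ F.erase α := fun C =>
    inter_eq_right.2 (inter_subset_right.trans (erase_subset _ _))
  refine ⟨fun p => (if p ∈ A ∩ F.erase α then a p else 0) - if p ∈ B ∩ F.erase α then b p else 0,
    ⟨?_, ?_⟩, fun p hp => ⟨fun hA => ?_, fun hB => ?_⟩, by simp, ?_⟩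
  · simp only [sum_sub_distrib, sum_ite_mem, e, a1, b1, sub_self]
  · simp only [sub_smul, ite_smul, zero_smul, sum_sub_distrib, sum_ite_mem, e, a2, b2, sub_self]
  · simp only [if_neg fun h => disjoint_left.1 hAB hA (mem_inter.1 h).1, sub_zero]
    split_ifs with h
    exacts [a0 p h, le_rfl]
  · simp only [if_neg fun h => disjoint_right.1 hAB hB (mem_inter.1 h).1, zero_sub, neg_nonpos]
    split_ifs with h
    exacts [b0 p h, le_rfl]
  · obtain ⟨q, hq, hq'⟩ := exists_ne_zero_of_sum_ne_zero (a1.trans_ne one_ne_zero)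
    refine ⟨q, mem_of_mem_erase (mem_inter.1 hq).2, ?_⟩
    simpa only [if_pos hq, if_neg fun h => disjoint_left.1 hAB (mem_inter.1 hq).1 (mem_inter.1 h).1,
      sub_zero] using hq'

theorem van (hG : GeneralPosition (A ∪ B)) (hF : F ⊆ A ∪ B) (h5 : #F = 5) (hd : Dp F w)
    {p q : P2} (hp : p ∈ F) (hq : q ∈ F) (hpq : p ≠ q) (h1 : w p = 0) (h2 : w q = 0) :
    ∀ x ∈ F, w x = 0 := fun x hx => by
  by_contra h
  have h3 := affineIndependent_iff.1 (hG ((F.erase p).erase q)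
    ((erase_subset _ _).trans ((erase_subset _ _).trans hF)) (by
      rw [card_erase_of_mem (mem_erase.2 ⟨hpq.symm, hq⟩), card_erase_of_mem hp, h5])) univ
    (fun e => w e) (by rw [sum_coe_sort _ w, sum_erase _ h2, sum_erase _ h1, hd.1])
    (by rw [sum_coe_sort _ fun e => w e • e, sum_erase _ (by simp [h2]),
      sum_erase _ (by simp [h1]), hd.2])
  exact h (h3 ⟨x, mem_erase.2 ⟨fun e => h (e ▸ h2), mem_erase.2 ⟨fun e => h (e ▸ h1), hx⟩⟩⟩
    (mem_univ _))

theorem same {u : P2 → ℝ} (hF : F ⊆ A ∪ B) (h : Cf A B F w) (h' : Cf A B F u) {x : P2}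
    (hx : x ∈ F) (h1 : w x ≠ 0) (h2 : u x ≠ 0) : 0 < w x * u x := by
  refine lt_of_le_of_ne ?_ (mul_ne_zero h1 h2).symm
  rcases mem_union.1 (hF hx) with e | e
  · exact mul_nonneg ((h x hx).1 e) ((h' x hx).1 e)
  · exact mul_nonneg_of_nonpos_of_nonpos ((h x hx).2 e) ((h' x hx).2 e)

end DepL

open DepL in
theorem two : TwoS := by
  intro A B F hAB hG hF h5 p hp q hq r hr hpq hpr hqr b1 b2 b3
  obtain ⟨w1, d1, c1, z1, x1, m1, n1⟩ := of_bad hAB b1
  obtain ⟨w2, d2, c2, z2, x2, m2, n2⟩ := of_bad hAB b2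
  obtain ⟨w3, d3, c3, z3, x3, m3, n3⟩ := of_bad hAB b3
  have s1 := same hF c3 c1 hq (fun e => n3 (van hG hF h5 d3 hq hr hqr e z3 _ m3))
    fun e => n1 (van hG hF h5 d1 hp hq hpq z1 e _ m1)
  have s2 := same hF c3 c2 hp (fun e => n3 (van hG hF h5 d3 hp hr hpr e z3 _ m3))
    fun e => n2 (van hG hF h5 d2 hp hq hpq e z2 _ m2)
  have s3 := same hF c1 c2 hr (fun e => n1 (van hG hF h5 d1 hp hr hpr z1 e _ m1))
    fun e => n2 (van hG hF h5 d2 hq hr hqr z2 e _ m2)
  have h := van hG hF h5 ((d3.lin d1 (w1 q * w2 p) (w3 q * w2 p)).lin d2 1 (w3 p * w1 q)) hp hq hpq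
    (by simp only [z1]; ring) (by simp only [z2]; ring) r hr
  simp only [z3] at h
  have h1 := mul_pos (mul_pos s1 s2) s3
  have h2 : w3 p * w1 q * w2 r = -(w3 q * w2 p * w1 r) := by linarith
  have h3 : w3 q * w1 q * (w3 p * w2 p) * (w1 r * w2 r) =
      w3 q * w2 p * w1 r * (w3 p * w1 q * w2 r) := by ring
  rw [h3, h2] at h1
  nlinarith [sq_nonneg (w3 q * w2 p * w1 r)]

open DepL in
theorem both : BothS := by
  intro A B F w hAB hF h5 hA hB s1 s2 α hα β hβ hne hn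
  have w0 : ∀ p ∈ F, w p ≠ 0 := fun p hp =>
    (mem_union.1 (hF hp)).elim (fun h => (hA p hp h).ne') fun h => (hB p hp h).ne
  have cf : ∀ (ν : P2 → ℝ) (ρ : ℝ), (∀ x ∈ F, ν x / w x ≤ ρ) →
      Cf A B F fun x => ρ * w x - 1 * ν x := fun ν ρ h x hx => by
    have e : ρ * w x - 1 * ν x = (ρ - ν x / w x) * w x := by field_simp [w0 x hx]
    simp only [e]
    exact ⟨fun h' => mul_nonneg (sub_nonneg.2 (h x hx)) (hA x hx h').le,
      fun h' => mul_nonpos_of_nonneg_of_nonpos (sub_nonneg.2 (h x hx)) (hB x hx h').le⟩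
  have step : ∀ ν : P2 → ℝ, Dp F ν → ν α = 0 → (∃ q ∈ F, ν q ≠ 0) →
      Bad A B (F.erase α) ∨ 0 < ν β / w β := fun ν hd h0 ⟨q, hq, hq'⟩ => by
    obtain ⟨p, hp, hm⟩ := exists_max_image F (fun x => ν x / w x) ⟨α, hα⟩
    rcases le_or_gt (ν p / w p) 0 with h | h
    · exact .inl (bad_of hF (Dp.lin ⟨s1, s2⟩ hd 0 1) (cf ν 0 fun x hx => (hm x hx).trans h)
        (by simp [h0]) ⟨q, hq, by simpa using hq'⟩)
    · refine .inr (by_contra fun hb => hn p hp (fun e => ?_) (fun e => hb (e ▸ h))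
        (bad_of hF (Dp.lin ⟨s1, s2⟩ hd _ 1) (cf ν _ hm) (by field_simp [w0 p hp]; ring)
          ⟨α, hα, by simpa [h0, w0 α hα] using h.ne'⟩))
      simp [e, h0] at h
  obtain ⟨f, f1, f2, q, hq, hq'⟩ :=
    Module.exists_nontrivial_relation_sum_zero_of_finrank_succ_lt_card (R := ℝ) (t := F.erase α)
      (by rw [card_erase_of_mem hα, h5]; simp)
  have e : ∀ x ∈ F.erase α, Function.update f α 0 x = f x := fun x hx =>
    Function.update_of_ne (ne_of_mem_erase hx) _ _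
  have hd : Dp F (Function.update f α 0) :=
    ⟨by rw [← sum_erase F (a := α) (by simp), sum_congr rfl e, f2],
      by rw [← sum_erase F (a := α) (by simp), sum_congr rfl fun x hx => by rw [e x hx], f1]⟩
  have hq2 : Function.update f α 0 q ≠ 0 := (e q hq).trans_ne hq'
  rcases step _ hd (by simp) ⟨q, mem_of_mem_erase hq, hq2⟩ with h | h
  · exact h
  rcases step _ (hd.lin hd 0 1) (by simp) ⟨q, mem_of_mem_erase hq, by simpa using hq2⟩ with h' | h'
  · exact h'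
  · simp only [zero_mul, one_mul, zero_sub, neg_div] at h'
    linarith

end Pool.Agent.MP_ff3a4f_co.Pl
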