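import Pool.Agent.MP_ff3a4f_co.pl.Spec

/-!
# Edges that are early at both ends
-/

set_option autoImplicit false

namespace Pool.Agent.MP_ff3a4f_co.Pl

open Finset
open scoped Classical

namespace GraphL

variable {ι : Type}

theorem first (s : Finset ι) (τ : ι → ℝ) (K : ℕ) (h : K ≤ #s) :
    K ≤ #{x ∈ s | #{y ∈ s | τ y < τ x} < K} := by
  by_cases hU : {x ∈ s | ¬ #{y ∈ s | τ y < τ x} < K}.Nonempty
  · obtain ⟨x, hx, hm⟩ := exists_min_image _ τ hU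
    refine (not_lt.1 (mem_filter.1 hx).2).trans (card_le_card fun y hy => ?_)
    rw [mem_filter] at hy ⊢
    exact ⟨hy.1, by_contra fun k => absurd hy.2 (not_lt.2 (hm y (mem_filter.2 ⟨hy.1, k⟩)))⟩
  · exact h.trans (card_le_card fun x hx => mem_filter.2
      ⟨hx, by_contra fun k => hU ⟨x, mem_filter.2 ⟨hx, k⟩⟩⟩)

theorem fib (S B : Finset ι) (R : ι → ι → Prop) (τ : ι → ι → ℝ) (K : ℕ) (t : ℝ)
    (h : ∀ a ∈ S, K ≤ #{b ∈ B | R a b ∧ τ a b ≤ t}) :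
    K * #S ≤ #{e ∈ S ×ˢ B | R e.1 e.2 ∧ τ e.1 e.2 ≤ t ∧
      #{b ∈ B | R e.1 b ∧ τ e.1 b < τ e.1 e.2} < K} := by
  refine mul_card_image_le_card_of_maps_to (f := Prod.fst)
    (fun e he => (mem_product.1 (mem_filter.1 he).1).1) K fun a ha => ?_
  refine (first _ (τ a) K (h a ha)).trans (card_le_card_of_injOn (fun b => (a, b))
    (fun b hb => ?_) fun b _ b' _ e => congrArg Prod.snd e)
  obtain ⟨h1, h2⟩ := mem_filter.1 (mem_coe.1 hb)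
  obtain ⟨h3, h4, h5⟩ := mem_filter.1 h1
  refine mem_coe.2 (mem_filter.2 ⟨mem_filter.2 ⟨mem_product.2 ⟨ha, h3⟩, h4, h5,
    lt_of_le_of_lt (card_le_card fun y hy => ?_) h2⟩, rfl⟩)
  obtain ⟨k1, k2, k3⟩ := mem_filter.1 hy
  exact mem_filter.2 ⟨mem_filter.2 ⟨k1, k2, k3.le.trans h5⟩, k3⟩

theorem side (A B : Finset ι) (R : ι → ι → Prop) (τ : ι → ι → ℝ) (K : ℕ) (t : ℝ)
    (h1 : K ≤ #{a ∈ A | K ≤ #{b ∈ B | R a b ∧ τ a b ≤ t}})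
    (h2 : #{a ∈ A | K ≤ #{b ∈ B | R a b ∧ τ a b < t}} ≤ K) :
    K ^ 2 ≤ #{e ∈ A ×ˢ B | R e.1 e.2 ∧ #{a ∈ A | R a e.2 ∧ τ a e.2 < τ e.1 e.2} < K ∧
      #{b ∈ B | R e.1 b ∧ τ e.1 b < τ e.1 e.2} < K} := by
  obtain ⟨A', a1, a2, a3⟩ := exists_subsuperset_card_eq (fun a ha => mem_filter.2
    ⟨(mem_filter.1 ha).1, (mem_filter.1 ha).2.trans (card_le_card fun b hb => mem_filter.2
      ⟨(mem_filter.1 hb).1, (mem_filter.1 hb).2.1, (mem_filter.1 hb).2.2.le⟩)⟩) h2 h1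
  obtain ⟨B', hB'⟩ : ∃ B', B' = {b ∈ B | K ≤ #{a ∈ A | R a b ∧ τ a b < t}} := ⟨_, rfl⟩
  have fa := fib A' B R τ K t fun a ha => (mem_filter.1 (a2 ha)).2
  have fb := (fib B' A (fun b a => R a b) (fun b a => τ a b) K t fun b hb =>
    (mem_filter.1 (hB' ▸ hb)).2.trans (card_le_card fun a ha => mem_filter.2
      ⟨(mem_filter.1 ha).1, (mem_filter.1 ha).2.1, (mem_filter.1 ha).2.2.le⟩)).trans_eq
    (card_map (Equiv.prodComm ι ι).toEmbedding).symm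
  set FA := {e ∈ A' ×ˢ B | R e.1 e.2 ∧ τ e.1 e.2 ≤ t ∧
    #{b ∈ B | R e.1 b ∧ τ e.1 b < τ e.1 e.2} < K} with hFA
  set FB := map (Equiv.prodComm ι ι).toEmbedding _ with hFB
  set G := {e ∈ A ×ˢ B | R e.1 e.2 ∧ #{a ∈ A | R a e.2 ∧ τ a e.2 < τ e.1 e.2} < K ∧
      #{b ∈ B | R e.1 b ∧ τ e.1 b < τ e.1 e.2} < K} with hG
  have mA : ∀ e ∈ FA, (e.1 ∈ A' ∧ e.2 ∈ B) ∧ R e.1 e.2 ∧ τ e.1 e.2 ≤ t ∧
      #{b ∈ B | R e.1 b ∧ τ e.1 b < τ e.1 e.2} < K := fun e he =>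
    ⟨mem_product.1 (mem_filter.1 he).1, (mem_filter.1 he).2⟩
  have mB : ∀ e ∈ FB, (e.2 ∈ B' ∧ e.1 ∈ A) ∧ R e.1 e.2 ∧ τ e.1 e.2 ≤ t ∧
      #{a ∈ A | R a e.2 ∧ τ a e.2 < τ e.1 e.2} < K := fun e he => by
    obtain ⟨e', he', rfl⟩ := mem_map.1 he
    exact ⟨mem_product.1 (mem_filter.1 he').1, (mem_filter.1 he').2⟩
  have s1 : FA ∩ FB ⊆ G ∩ A' ×ˢ B' := fun e he => by
    obtain ⟨⟨p1, p2⟩, p3, -, p4⟩ := mA e (mem_inter.1 he).1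
    obtain ⟨⟨q1, q2⟩, -, -, q4⟩ := mB e (mem_inter.1 he).2
    exact mem_inter.2 ⟨mem_filter.2 ⟨mem_product.2 ⟨q2, p2⟩, p3, q4, p4⟩, mem_product.2 ⟨p1, q1⟩⟩
  have s2 : FA ∪ FB ⊆ (G \ A' ×ˢ B') ∪ A' ×ˢ B' := fun e he => by
    by_cases hP : e ∈ A' ×ˢ B'
    · exact mem_union_right _ hP
    refine mem_union_left _ (mem_sdiff.2 ⟨?_, hP⟩)
    rcases mem_union.1 he with he | he
    · obtain ⟨⟨p1, p2⟩, p3, p5, p4⟩ := mA e he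
      refine mem_filter.2 ⟨mem_product.2 ⟨(mem_filter.1 (a2 p1)).1, p2⟩, p3, not_le.1 fun k => ?_,
        p4⟩
      refine hP (mem_product.2 ⟨p1, hB' ▸ mem_filter.2 ⟨p2, k.trans (card_le_card fun a ha => ?_)⟩⟩)
      obtain ⟨k1, k2, k3⟩ := mem_filter.1 ha
      exact mem_filter.2 ⟨k1, k2, k3.trans_le p5⟩
    · obtain ⟨⟨q1, q2⟩, q3, q5, q4⟩ := mB e he
      refine mem_filter.2 ⟨mem_product.2 ⟨q2, (mem_filter.1 (hB' ▸ q1)).1⟩, q3, q4,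
        not_le.1 fun k => ?_⟩
      refine hP (mem_product.2 ⟨a1 (mem_filter.2 ⟨q2, k.trans (card_le_card fun b hb => ?_)⟩), q1⟩)
      obtain ⟨k1, k2, k3⟩ := mem_filter.1 hb
      exact mem_filter.2 ⟨k1, k2, k3.trans_le q5⟩
  have c1 := card_le_card s1
  have c2 := (card_le_card s2).trans (card_union_le _ _)
  have c3 := card_union_add_card_inter FA FB
  have c4 := card_sdiff_add_card_inter G (A' ×ˢ B')
  rw [card_product, a3] at c2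
  rw [a3, ← sq] at fa
  omega

theorem early (A B : Finset ι) (R : ι → ι → Prop) (τ : ι → ι → ℝ) {K : ℕ} (hK : 0 < K)
    (Q : ι → ι → Prop) (h : K ≤ #{a ∈ A | K ≤ #{b ∈ B | R a b ∧ Q a b}}) :
    ∃ e ∈ A ×ˢ B, R e.1 e.2 ∧ Q e.1 e.2 ∧
      K ≤ #{a ∈ A | K ≤ #{b ∈ B | R a b ∧ τ a b ≤ τ e.1 e.2}} := by
  obtain ⟨a, ha⟩ := card_pos.1 (hK.trans_le h)
  obtain ⟨b, hb⟩ := card_pos.1 (hK.trans_le (mem_filter.1 ha).2)
  obtain ⟨e, he, hm⟩ := exists_max_image {e ∈ A ×ˢ B | R e.1 e.2 ∧ Q e.1 e.2}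
    (fun e => τ e.1 e.2) ⟨(a, b), mem_filter.2
      ⟨mem_product.2 ⟨(mem_filter.1 ha).1, (mem_filter.1 hb).1⟩, (mem_filter.1 hb).2⟩⟩
  obtain ⟨e1, e2, e3⟩ := mem_filter.1 he
  refine ⟨e, e1, e2, e3, h.trans (card_le_card fun a ha => ?_)⟩
  obtain ⟨k1, k2⟩ := mem_filter.1 ha
  refine mem_filter.2 ⟨k1, k2.trans (card_le_card fun b hb => ?_)⟩
  obtain ⟨k3, k4⟩ := mem_filter.1 hb
  exact mem_filter.2 ⟨k3, k4.1, hm (a, b) (mem_filter.2 ⟨mem_product.2 ⟨k1, k3⟩, k4⟩)⟩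

end GraphL

open GraphL in
theorem graph : GraphS := by
  intro ι A B R τ K hA hB
  rcases K.eq_zero_or_pos with rfl | hK
  · simp
  obtain ⟨e₀, p1, p2, -, p3⟩ := early A B R τ hK (fun _ _ => True) (by simpa using hA)
  obtain ⟨e, he, hm⟩ := exists_min_image {e ∈ A ×ˢ B |
      K ≤ #{a ∈ A | K ≤ #{b ∈ B | R a b ∧ τ a b ≤ τ e.1 e.2}} ∨
      K ≤ #{b ∈ B | K ≤ #{a ∈ A | R a b ∧ τ a b ≤ τ e.1 e.2}}}
    (fun e => τ e.1 e.2) ⟨e₀, mem_filter.2 ⟨p1, .inl p3⟩⟩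
  rcases (mem_filter.1 he).2 with h | h
  · refine side A B R τ K _ h (le_of_not_ge fun k => ?_)
    obtain ⟨e', q1, -, q2, q3⟩ := early A B R τ hK (fun a b => τ a b < τ e.1 e.2) k
    exact absurd q2 (not_lt.2 (hm e' (mem_filter.2 ⟨q1, .inl q3⟩)))
  · refine (side B A (fun b a => R a b) (fun b a => τ a b) K _ h (le_of_not_ge fun k => ?_)).trans
      (card_le_card_of_injOn Prod.swap (fun x hx => ?_) Prod.swap_injective.injOn)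
    · obtain ⟨e', q1, -, q2, q3⟩ := early B A (fun b a => R a b) (fun b a => τ a b) hK
        (fun b a => τ a b < τ e.1 e.2) k
      exact absurd q2 (not_lt.2 (hm e'.swap (mem_filter.2
        ⟨mem_product.2 (mem_product.1 q1).symm, .inr q3⟩)))
    · obtain ⟨k1, k2, k3, k4⟩ := mem_filter.1 (mem_coe.1 hx)
      exact mem_coe.2 (mem_filter.2 ⟨mem_product.2 (mem_product.1 k1).symm, k2, k4, k3⟩)

end Pool.Agent.MP_ff3a4f_co.Pl
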