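import Pool.Agent.MP_ff3a4f_co.pl.Spec

/-! The construction in the plane. -/

set_option autoImplicit false

namespace Pool.Agent.MP_ff3a4f_co.Pl

open Finset Pool.Agent.MP_ff3a4f_co.Kirchberger
open scoped Classical

namespace LowL

/-- the points on the left -/
def lf (K r : ℕ) : Prop := K ≤ r ∧ r < 3 * K ∧ (r - K) % 2 = 1

/-- first coordinates -/
noncomputable def x (K r : ℕ) : ℤ := if lf K r then -r else r

/-- the colour -/
def sg (K N r : ℕ) : ℝ := if K ≤ r ∧ r < N + K then -1 else 1

/-- the sign of the second coordinate -/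
noncomputable def ss (K N r : ℕ) : ℝ := if lf K r then 1 else sg K N r

/-- second coordinates -/
noncomputable def y (K N r : ℕ) : ℝ := ss K N r * (8 * N + 1) ^ r

/-- the points -/
noncomputable def pt (K N r : ℕ) : P2 := !₂[(x K r : ℝ), y K N r]

/-- the orientation -/
noncomputable def D (K N i j k : ℕ) : ℝ :=
  (x K j - x K i) * (y K N k - y K N i) - (y K N j - y K N i) * (x K k - x K i)

variable {K N : ℕ}

theorem x_cases (K r : ℕ) : (lf K r ∧ x K r = -r) ∨ (¬ lf K r ∧ x K r = r) := by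
  unfold x
  split_ifs with h <;> simp [h]

theorem x_inj {i j : ℕ} (h : x K i = x K j) : i = j := by
  have := x_cases K i
  have := x_cases K j
  omega

theorem pt_inj : Function.Injective (pt K N) := fun i j h => by
  have : (x K i : ℝ) = x K j := congrArg (fun p : P2 => p 0) h
  exact x_inj (by exact_mod_cast this)

theorem sg_cases (K N r : ℕ) :
    ((K ≤ r ∧ r < N + K) ∧ sg K N r = -1) ∨ (¬ (K ≤ r ∧ r < N + K) ∧ sg K N r = 1) := by
  unfold sg
  split_ifs with h <;> simp [h]

theorem sg_sq (r : ℕ) : sg K N r * sg K N r = 1 := by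
  rcases sg_cases K N r with ⟨-, h⟩ | ⟨-, h⟩ <;> simp [h]

theorem ss_sq (r : ℕ) : ss K N r * ss K N r = 1 := by
  unfold ss
  split_ifs
  exacts [one_mul 1, sg_sq r]

theorem key {i j r : ℕ} (hi : i < r) (hj : j < r) (hr : r < 2 * N) (h : x K i < x K j) :
    0 < ss K N r * D K N i j r := by
  obtain ⟨r, rfl⟩ : ∃ m, r = m + 1 := ⟨r - 1, by omega⟩
  have hQ : (1 : ℝ) ≤ 8 * N + 1 := by linarith [(Nat.cast_nonneg N : (0 : ℝ) ≤ N)]
  have hy : ∀ a b : ℕ, a < b + 1 → |ss K N (b + 1) * y K N a| ≤ (8 * N + 1) ^ b := fun a b hab => by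
    rw [y, abs_mul, abs_mul, abs_eq_abs.2 (mul_self_eq_one_iff.1 (ss_sq _)),
      abs_eq_abs.2 (mul_self_eq_one_iff.1 (ss_sq _)), abs_one, one_mul, one_mul,
      abs_of_nonneg (by positivity)]
    exact pow_le_pow_right₀ hQ (by omega)
  have hx : ∀ a b : ℕ, a < 2 * N → b < 2 * N → |(x K a : ℝ) - x K b| ≤ 4 * N := fun a b ha hb => by
    have := x_cases K a
    have := x_cases K b
    have : |x K a - x K b| ≤ 4 * N := abs_le.2 ⟨by omega, by omega⟩
    exact_mod_cast this
  have h1 : (1 : ℝ) ≤ x K j - x K i := by exact_mod_cast (by omega : 1 ≤ x K j - x K i)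
  have h2 : |ss K N (r + 1) * y K N i * (x K j - x K (r + 1))| ≤ (8 * N + 1) ^ r * (4 * N) := by
    rw [abs_mul]
    exact mul_le_mul (hy _ _ hi) (hx _ _ (by omega) hr) (abs_nonneg _) (by positivity)
  have h3 : |ss K N (r + 1) * y K N j * (x K (r + 1) - x K i)| ≤ (8 * N + 1) ^ r * (4 * N) := by
    rw [abs_mul]
    exact mul_le_mul (hy _ _ hj) (hx _ _ hr (by omega)) (abs_nonneg _) (by positivity)
  have h4 : ss K N (r + 1) * y K N (r + 1) = (8 * N + 1) ^ r * (8 * N + 1) := by
    rw [y, ← mul_assoc, ss_sq, one_mul, pow_succ]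
  have h5 : (0 : ℝ) < (8 * N + 1) ^ r := by positivity
  have h6 := mul_le_mul_of_nonneg_left h1 (by positivity : (0 : ℝ) ≤ (8 * N + 1) ^ r * (8 * N + 1))
  have e : ss K N (r + 1) * D K N i j (r + 1) = ss K N (r + 1) * y K N (r + 1) * (x K j - x K i) -
      ss K N (r + 1) * y K N i * (x K j - x K (r + 1)) -
      ss K N (r + 1) * y K N j * (x K (r + 1) - x K i) := by
    unfold D
    ring
  rw [e, h4]
  linarith [le_of_abs_le h2, le_of_abs_le h3]

theorem small {a b : ℝ} (ha : 0 < a) (hb : 0 < b) (p q : ℝ) :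
    ∃ ε, 0 < ε ∧ 0 < a + ε * p ∧ 0 < b + ε * q := by
  have h0 : 0 < |p| + |q| + 1 := by positivity
  obtain ⟨ε, h1, h2⟩ : ∃ ε, 0 < ε ∧ ε * (|p| + |q| + 1) = min a b :=
    ⟨min a b / (|p| + |q| + 1), by positivity, by field_simp⟩
  have h3 := mul_le_mul_of_nonneg_left (neg_abs_le p) h1.le
  have h4 := mul_le_mul_of_nonneg_left (neg_abs_le q) h1.le
  have h5 := mul_nonneg h1.le (abs_nonneg p)
  have h6 := mul_nonneg h1.le (abs_nonneg q)
  exact ⟨ε, h1, by linarith [min_le_left a b], by linarith [min_le_right a b]⟩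

/-- a line separates the points according to their colours -/
def Sep (K N : ℕ) (T : Finset ℕ) : Prop :=
  ∃ a b c : ℝ, ∀ r ∈ T, 0 < sg K N r * (a * x K r + b * y K N r + c)

theorem pert {i j k l : ℕ} (h : x K i < x K j) (hk : 0 < sg K N k * D K N i j k)
    (hl : 0 < sg K N l * D K N i j l) {T : Finset ℕ}
    (hT : ∀ r ∈ T, r = i ∨ r = j ∨ r = k ∨ r = l) : Sep K N T := by
  have h1 : (0 : ℝ) < x K j - x K i := by exact_mod_cast sub_pos.2 h
  obtain ⟨ε, h0, h2, h3⟩ := small hk hl
    (sg K N k * (sg K N i * (x K j - x K k) + sg K N j * (x K k - x K i)))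
    (sg K N l * (sg K N i * (x K j - x K l) + sg K N j * (x K l - x K i)))
  have h4 := mul_pos h0 h1
  refine ⟨-(y K N j - y K N i) + ε * (sg K N j - sg K N i), x K j - x K i,
    -(x K j - x K i) * y K N i + (y K N j - y K N i) * x K i +
      ε * (sg K N i * x K j - sg K N j * x K i), fun r hr => ?_⟩
  unfold D at h2 h3
  rcases hT r hr with rfl | rfl | rfl | rfl
  · refine h4.trans_eq ?_
    linear_combination (-(ε * (x K j - x K r))) * sg_sq (K := K) (N := N) r
  · refine h4.trans_eq ?_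
    linear_combination (-(ε * (x K r - x K i))) * sg_sq (K := K) (N := N) r
  · exact h2.trans_eq (by ring)
  · exact h3.trans_eq (by ring)

theorem four (hN : 3 * K ≤ N) {i j k l : ℕ} (hi : i < k) (hj : j < k) (hk : k < l)
    (hl : l < 2 * N) (hl' : 3 * K ≤ l) (h : x K i < x K j) {T : Finset ℕ}
    (hT : ∀ r ∈ T, r = i ∨ r = j ∨ r = k ∨ r = l) :
    Sep K N T ∨ ∃ u t, i < K ∧ j = K + 2 * u ∧ k = K + 2 * t + 1 ∧ u ≤ t ∧ t < K := by
  have e : ss K N l = sg K N l := if_neg fun h => by
    unfold lf at h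
    omega
  have h1 := key (K := K) hi hj (hk.trans hl) h
  have xi := x_cases K i
  have xj := x_cases K j
  rcases x_cases K k with ⟨h2, xk⟩ | ⟨h2, -⟩
  · rw [ss, if_pos h2, one_mul] at h1
    rcases sg_cases K N i with ⟨-, si⟩ | ⟨si, -⟩
    · refine Or.inl (pert (i := k) (j := j) (k := i) (l := l) (by omega) ?_
        (e ▸ key hk (by omega) hl (by omega)) fun r hr => by have := hT r hr; tauto)
      rw [si]
      exact h1.trans_eq (by unfold D; ring)
    rcases sg_cases K N j with ⟨sj, -⟩ | ⟨-, sj⟩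
    · unfold lf at *
      exact Or.inr ⟨(j - K) / 2, (k - K) / 2, by omega⟩
    · refine Or.inl (pert (i := k) (j := i) (k := j) (l := l) (by omega) ?_
        (e ▸ key hk (by omega) hl (by omega)) fun r hr => by have := hT r hr; tauto)
      rw [sj]
      exact h1.trans_eq (by unfold D; ring)
  · rw [ss, if_neg h2] at h1
    exact Or.inl (pert h h1 (e ▸ key (by omega) (by omega) hl h) hT)

theorem top {T : Finset ℕ} {n : ℕ} (h : #T = n + 1) :
    ∃ l T', T = insert l T' ∧ #T' = n ∧ ∀ i ∈ T', i < l := by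
  have h1 : T.Nonempty := card_pos.1 (by omega)
  refine ⟨T.max' h1, T.erase (T.max' h1), (insert_erase (max'_mem _ _)).symm, ?_, fun i hi => ?_⟩
  · rw [card_erase_of_mem (max'_mem _ _)]
    omega
  · exact lt_max'_of_mem_erase_max' _ _ hi

theorem three {T : Finset ℕ} (h : #T = 3) :
    ∃ i j k, T = {k, i, j} ∧ i < k ∧ j < k ∧ x K i < x K j := by
  obtain ⟨k, T', rfl, h2, h3⟩ := top h
  obtain ⟨i, j, hij, rfl⟩ := card_eq_two.1 h2
  rcases lt_or_gt_of_ne (fun e => hij (x_inj (K := K) e)) with h4 | h4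
  · exact ⟨i, j, k, rfl, h3 i (by simp), h3 j (by simp), h4⟩
  · exact ⟨j, i, k, by rw [pair_comm], h3 j (by simp), h3 i (by simp), h4⟩

theorem inner_pt (w : P2) (r : ℕ) : inner ℝ w (pt K N r) = w 0 * x K r + w 1 * y K N r := by
  simp [pt, PiLp.inner_apply, mul_comm]

theorem gp (hN : 3 ≤ 2 * N) : GeneralPosition ((range (2 * N)).image (pt K N)) := by
  intro S hS h3
  obtain ⟨S', h4, h5, h6⟩ := exists_subsuperset_card_eq hS h3
    (by rwa [card_image_of_injective _ pt_inj, card_range])
  obtain ⟨T, hT, rfl⟩ := subset_image_iff.1 h5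
  rw [card_image_of_injective _ pt_inj] at h6
  obtain ⟨i, j, k, rfl, hi, hj, h⟩ := three (K := K) h6
  have h7 := key (K := K) hi hj (mem_range.1 (hT (by simp))) h
  have h8 : AffineIndependent ℝ ![pt K N i, pt K N j, pt K N k] := by
    rw [affineIndependent_iff_not_collinear_set, collinear_iff_of_mem (p₀ := pt K N i) (by simp)]
    rintro ⟨v, hv⟩
    obtain ⟨a, ha⟩ := hv (pt K N j) (by simp)
    obtain ⟨b, hb⟩ := hv (pt K N k) (by simp)
    have a0 : (x K j : ℝ) = a * v 0 + x K i := congrArg (fun p : P2 => p 0) ha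
    have a1 : y K N j = a * v 1 + y K N i := congrArg (fun p : P2 => p 1) ha
    have b0 : (x K k : ℝ) = b * v 0 + x K i := congrArg (fun p : P2 => p 0) hb
    have b1 : y K N k = b * v 1 + y K N i := congrArg (fun p : P2 => p 1) hb
    rw [D, a0, a1, b0, b1] at h7
    exact h7.ne' (by ring)
  refine h8.range.mono fun p hp => ?_
  have := h4 hp
  simp only [image_insert, image_singleton, mem_insert, mem_singleton] at this
  rcases this with rfl | rfl | rfl
  exacts [⟨2, rfl⟩, ⟨0, rfl⟩, ⟨1, rfl⟩]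

theorem inside {t b r : ℕ} (hb : b < K) (ht : t < K) (hr : 3 * K ≤ r) (hr' : r < N + K)
    (hN : 3 * K ≤ N) {w : P2} {c : ℝ} (h1 : c < inner ℝ w (pt K N (K + 2 * t)))
    (h2 : c < inner ℝ w (pt K N (K + 2 * t + 1))) (h3 : c < inner ℝ w (pt K N r))
    (h4 : inner ℝ w (pt K N b) < c) : False := by
  have l1 : lf K (K + 2 * t + 1) := by unfold lf; omega
  have l2 : ¬ lf K r := by unfold lf; omega
  have x1 := x_cases K b
  have x2 := x_cases K (K + 2 * t)
  have x3 := x_cases K (K + 2 * t + 1)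
  unfold lf at x1 x2 x3
  have s1 : ss K N r = -1 := by rw [ss, if_neg l2, sg, if_pos (by omega)]
  have d1 := key (K := K) (N := N) (i := K + 2 * t + 1) (j := K + 2 * t) (r := r) (by omega)
    (by omega) (by omega) (by omega)
  have d2 := key (K := K) (N := N) (i := b) (j := K + 2 * t) (r := r) (by omega) (by omega)
    (by omega) (by omega)
  have d3 := key (K := K) (N := N) (i := K + 2 * t + 1) (j := b) (r := r) (by omega) (by omega)
    (by omega) (by omega)
  have d4 := key (K := K) (N := N) (i := b) (j := K + 2 * t) (r := K + 2 * t + 1) (by omega)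
    (by omega) (by omega) (by omega)
  rw [s1] at d1 d2 d3
  rw [ss, if_pos l1] at d4
  rw [inner_pt, ← sub_pos] at h1 h2 h3 h4
  have := add_pos (add_pos (mul_pos h4 d1) (mul_pos h2 d2)) (add_pos (mul_pos h1 d3) (mul_pos h3 d4))
  refine this.ne' ?_
  unfold D
  ring

theorem miss {α : Type} {A A' : Finset α} {K : ℕ} (h : A' ⊆ A) (f : ℕ → α)
    (hf : Set.InjOn f (range K)) (h1 : ∀ t < K, f t ∈ A ∧ f t ∉ A') : #A' + K ≤ #A := by
  have := card_le_card_of_injOn (s := range K) (t := A \ A') f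
    (fun t ht => mem_sdiff.2 (h1 t (mem_range.1 ht))) hf
  rw [card_range, card_sdiff_of_subset h] at this
  have := card_le_card h
  omega

end LowL

open LowL in
theorem low : LowS := by
  intro K N hK hN
  obtain ⟨A, hA⟩ : ∃ A, A = ((range (2 * N)).filter fun r => K ≤ r ∧ r < N + K).image (pt K N) :=
    ⟨_, rfl⟩
  obtain ⟨B, hB⟩ : ∃ B, B = ((range (2 * N)).filter fun r => ¬ (K ≤ r ∧ r < N + K)).image
    (pt K N) := ⟨_, rfl⟩
  have mA : ∀ r, pt K N r ∈ A ↔ K ≤ r ∧ r < N + K := fun r => by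
    rw [hA, pt_inj.mem_finset_image, mem_filter, mem_range]
    omega
  have mB : ∀ r, pt K N r ∈ B ↔ r < 2 * N ∧ ¬ (K ≤ r ∧ r < N + K) := fun r => by
    rw [hB, pt_inj.mem_finset_image, mem_filter, mem_range]
  have hU : A ∪ B = (range (2 * N)).image (pt K N) := by
    rw [hA, hB, ← image_union, filter_union_filter_not_eq]
  have cU : #(A ∪ B) = 2 * N := by rw [hU, card_image_of_injective _ pt_inj, card_range]
  have hD : Disjoint A B := by
    rw [hA, hB]
    exact (disjoint_image pt_inj).2 (disjoint_filter_filter_not _ _ _)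
  have cA : #A = N := by
    have : ((range (2 * N)).filter fun r => K ≤ r ∧ r < N + K) = Ico K (N + K) := by
      ext r
      simp only [mem_filter, mem_range, mem_Ico]
      omega
    rw [hA, card_image_of_injective _ pt_inj, this, Nat.card_Ico]
    omega
  have cB : #B = N := by
    have := card_union_of_disjoint hD
    omega
  refine ⟨A, B, hD, cA, cB, hU ▸ gp (by omega), ?_, fun A' hA' B' hB' ⟨w, c, _, h1, h2⟩ => ?_⟩
  · let P := range K ×ˢ ((range K).sigma fun t => range (t + 1)) ×ˢ range (2 * N)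
    have cP : #P = K ^ 2 * (K + 1) * N := by
      have : ∀ K : ℕ, (∑ t ∈ range K, (t + 1)) * 2 = K * (K + 1) := fun K => by
        induction K with
        | zero => rfl
        | succ K ih =>
          rw [sum_range_succ, add_mul, ih]
          ring
      simp only [P, card_product, card_sigma, card_range]
      linear_combination (K * N) * this K
    have hs : (A ∪ B).powersetCard 4 ⊆ goodSets A B ∪ (P.image fun e =>
        image (pt K N) {e.2.2, K + 2 * e.2.1.1 + 1, e.1, K + 2 * e.2.1.2}) ∪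
        ((range (3 * K)).image (pt K N)).powersetCard 4 := by
      intro S hS
      obtain ⟨h1, h2⟩ := mem_powersetCard.1 hS
      rw [hU] at h1
      obtain ⟨T, hT, rfl⟩ := subset_image_iff.1 h1
      have h3 := h2
      rw [card_image_of_injective _ pt_inj] at h3
      obtain ⟨l, T', rfl, h4, h5⟩ := top h3
      obtain ⟨i, j, k, rfl, hi, hj, h⟩ := three (K := K) h4
      have hk := h5 k (by simp)
      have hl := mem_range.1 (hT (mem_insert_self _ _))
      rcases lt_or_ge l (3 * K) with h6 | h6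
      · refine mem_union_right _ (mem_powersetCard.2 ⟨image_subset_image fun r hr => ?_, h2⟩)
        simp only [mem_insert, mem_singleton] at hr
        rw [mem_range]
        omega
      refine mem_union_left _ (mem_union.2 ((four hN hi hj hk hl h6 h
        (T := {l, k, i, j}) fun r hr => ?_).imp ?_ ?_))
      · simp only [mem_insert, mem_singleton] at hr
        tauto
      · rintro ⟨a, b, c, h7⟩
        refine mem_filter.2 ⟨hS, separated_of_weak (by norm_num) _ _ !₂[-a, -b] c
          (fun p hp => ?_) fun p hp => ?_⟩ <;>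
          obtain ⟨h8, h9⟩ := mem_inter.1 hp <;> obtain ⟨r, hr, rfl⟩ := mem_image.1 h9 <;>
          have h10 := h7 r hr <;> rw [inner_pt]
        · rw [sg, if_pos ((mA r).1 h8)] at h10
          simp only [Matrix.cons_val_zero, Matrix.cons_val_one]
          linarith
        · rw [sg, if_neg ((mB r).1 h8).2] at h10
          simp only [Matrix.cons_val_zero, Matrix.cons_val_one]
          linarith
      · rintro ⟨u, t, h7, rfl, rfl, h8, h9⟩
        refine mem_image.2 ⟨(i, ⟨t, u⟩, l), ?_, rfl⟩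
        simp only [P, mem_product, mem_sigma, mem_range]
        omega
    have h1 := card_le_card hs
    rw [card_powersetCard, cU] at h1
    refine h1.trans ((card_union_le _ _).trans (add_le_add ((card_union_le _ _).trans
      (add_le_add le_rfl (card_image_le.trans cP.le))) ?_))
    rw [card_powersetCard, card_image_of_injective _ pt_inj, card_range]
    exact Nat.choose_le_pow _ _
  · by_contra hc
    rw [not_or] at hc
    obtain ⟨b, hb, hb'⟩ : ∃ b < K, pt K N b ∈ B' := by
      by_contra h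
      exact hc.2 (cB ▸ miss hB' (pt K N) pt_inj.injOn fun t ht =>
        ⟨(mB t).2 (by omega), fun h' => h ⟨t, ht, h'⟩⟩)
    obtain ⟨r, hr, hr'⟩ : ∃ r < K, pt K N (3 * K + r) ∈ A' := by
      by_contra h
      exact hc.1 (cA ▸ miss hA' (fun r => pt K N (3 * K + r))
        (fun a _ b _ e => by have := pt_inj e; omega) fun t ht =>
        ⟨(mA _).2 (by omega), fun h' => h ⟨t, ht, h'⟩⟩)
    obtain ⟨t, ht, h3, h4⟩ : ∃ t < K, pt K N (K + 2 * t) ∈ A' ∧ pt K N (K + 2 * t + 1) ∈ A' := by
      by_contra h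
      refine hc.1 (cA ▸ miss hA'
        (fun t => pt K N (if pt K N (K + 2 * t) ∈ A' then K + 2 * t + 1 else K + 2 * t))
        (fun a _ b _ e => ?_) fun t ht => ?_)
      · have := pt_inj e
        split_ifs at this <;> omega
      · split_ifs with h5
        exacts [⟨(mA _).2 (by omega), fun h' => h ⟨t, ht, h5, h'⟩⟩, ⟨(mA _).2 (by omega), h5⟩]
    exact inside hb ht (r := 3 * K + r) (by omega) (by omega) hN (h1 _ h3) (h1 _ h4) (h1 _ hr')
      (h2 _ hb')

end Pool.Agent.MP_ff3a4f_co.Pl
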