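import Pool.Agent.MP_ff3a4f_co.pl.Spec

/-!
# The sharp constant in the plane: the two double counts
-/

set_option autoImplicit false

namespace Pool.Agent.MP_ff3a4f_co.Pl

open Finset
open scoped Classical

theorem sum_sq_le {ι : Type} [DecidableEq ι] (X : Finset ι) (bad : Finset ι → Prop)
    (h : ∀ F ⊆ X, #F = 5 → ∀ p ∈ F, ∀ q ∈ F, ∀ r ∈ F, p ≠ q → p ≠ r → q ≠ r →
      bad (F.erase p) → bad (F.erase q) → bad (F.erase r) → False) :
    ∑ T ∈ X.powersetCard 3, #{q ∈ X | q ∉ T ∧ bad (insert q T)} *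
      #{q ∈ X | q ∉ T ∧ bad (insert q T)} ≤ #X * #{S ∈ X.powersetCard 4 | bad S} := by
  have e1 : ∑ T ∈ X.powersetCard 3, #{q ∈ X | q ∉ T ∧ bad (insert q T)} *
      #{q ∈ X | q ∉ T ∧ bad (insert q T)} =
      #((X.powersetCard 3).sigma fun T => {q ∈ X | q ∉ T ∧ bad (insert q T)} ×ˢ
        {q ∈ X | q ∉ T ∧ bad (insert q T)}) := by
    rw [card_sigma]
    exact sum_congr rfl fun T _ => (card_product _ _).symm
  rw [e1, ← card_product]
  refine card_le_card_of_injOn (fun z => (z.2.2, insert z.2.1 z.1)) ?_ ?_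
  · rintro ⟨T, q, q'⟩ hz
    simp only [coe_sigma, Set.mem_sigma_iff, mem_coe, mem_powersetCard, mem_product,
      mem_filter] at hz
    obtain ⟨⟨hT, hc⟩, ⟨hq, hqT, hb⟩, hq', -, -⟩ := hz
    simp only [mem_coe, mem_product, mem_filter, mem_powersetCard]
    exact ⟨hq', ⟨insert_subset hq hT, by rw [card_insert_of_notMem hqT, hc]⟩, hb⟩
  · rintro ⟨T, q, q'⟩ hz ⟨U, r, r'⟩ hw he
    simp only [coe_sigma, Set.mem_sigma_iff, mem_coe, mem_powersetCard, mem_product,
      mem_filter] at hz hw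
    obtain ⟨⟨hT, hc⟩, ⟨hq, hqT, hb⟩, hq', hq'T, hb'⟩ := hz
    obtain ⟨⟨hU, hd⟩, ⟨hr, hrU, -⟩, -, hr'U, hg'⟩ := hw
    simp only [Prod.mk.injEq] at he
    obtain ⟨rfl, he⟩ := he
    by_cases hqr : q = r
    · subst hqr
      have : T = U := by rw [← erase_insert hqT, he, erase_insert hrU]
      subst this
      rfl
    · exfalso
      have hrT : r ∈ T := by
        have : r ∈ insert q T := he ▸ mem_insert_self r U
        exact (mem_insert.1 this).resolve_left (Ne.symm hqr)
      have hqU : q ∈ U := by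
        have : q ∈ insert r U := he ▸ mem_insert_self q T
        exact (mem_insert.1 this).resolve_left hqr
      have h1 : q' ≠ q := fun e => hr'U (e ▸ hqU)
      have h2 : q' ≠ r := fun e => hq'T (e ▸ hrT)
      have h3 : q' ∉ insert q T := by
        rw [mem_insert]
        exact fun e => e.elim h1 hq'T
      refine h (insert q' (insert q T)) (insert_subset hq' (insert_subset hq hT))
        (by rw [card_insert_of_notMem h3, card_insert_of_notMem hqT, hc]) q'
        (mem_insert_self _ _) q (mem_insert_of_mem (mem_insert_self _ _)) r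
        (mem_insert_of_mem (mem_insert_of_mem hrT)) h1 h2 hqr ?_ ?_ ?_
      · rwa [erase_insert h3]
      · rwa [erase_insert_of_ne h1, erase_insert hqT]
      · rwa [erase_insert_of_ne h2, he, erase_insert hrU]

theorem sum : SumS := by
  intro ι _ X A B bad hAB hA hB h
  refine le_trans ?_ (sum_sq_le X bad h)
  have e1 : ∑ α ∈ A, ∑ β ∈ B, #{T ∈ X.powersetCard 3 | α ∉ T ∧ β ∉ T ∧ bad (insert α T) ∧
      bad (insert β T)} = ∑ T ∈ X.powersetCard 3, #{q ∈ A | q ∉ T ∧ bad (insert q T)} *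
      #{q ∈ B | q ∉ T ∧ bad (insert q T)} := by
    simp only [card_filter, sum_mul_sum]
    rw [sum_comm' (s := X.powersetCard 3) (t := fun _ => A) (t' := A)
      (s' := fun _ => X.powersetCard 3) (fun _ _ => by tauto)]
    refine sum_congr rfl fun α _ => ?_
    rw [sum_comm]
    refine sum_congr rfl fun T _ => sum_congr rfl fun β _ => ?_
    by_cases a1 : α ∉ T ∧ bad (insert α T) <;> by_cases a2 : β ∉ T ∧ bad (insert β T)
    · rw [if_pos a1, if_pos a2, if_pos ⟨a1.1, a2.1, a1.2, a2.2⟩, mul_one]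
    · rw [if_neg a2, mul_zero, if_neg fun c => a2 ⟨c.2.1, c.2.2.2⟩]
    · rw [if_neg a1, zero_mul, if_neg fun c => a1 ⟨c.1, c.2.2.1⟩]
    · rw [if_neg a1, zero_mul, if_neg fun c => a1 ⟨c.1, c.2.2.1⟩]
  rw [e1, mul_sum]
  refine sum_le_sum fun T _ => ?_
  have h1 : #{q ∈ A | q ∉ T ∧ bad (insert q T)} + #{q ∈ B | q ∉ T ∧ bad (insert q T)} ≤
      #{q ∈ X | q ∉ T ∧ bad (insert q T)} := by
    rw [← card_union_of_disjoint (disjoint_filter_filter hAB)]
    exact card_le_card (union_subset (filter_subset_filter _ hA) (filter_subset_filter _ hB))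
  refine le_trans ?_ (Nat.mul_le_mul h1 h1)
  generalize #{q ∈ A | q ∉ T ∧ bad (insert q T)} = a
  generalize #{q ∈ B | q ∉ T ∧ bad (insert q T)} = b
  nlinarith [sq_nonneg ((a : ℤ) - b)]

theorem gam : GamS := by
  intro ι _ X A B bad hA hB h
  have e1 : ∑ α ∈ A, ∑ β ∈ B, #{e ∈ X ×ˢ X | bad {e.1, e.2, α, β}} =
      #{z ∈ A ×ˢ B ×ˢ X ×ˢ X | bad {z.2.2.1, z.2.2.2, z.1, z.2.1}} := by
    rw [card_filter, sum_product]
    refine sum_congr rfl fun α _ => ?_
    rw [sum_product]
    refine sum_congr rfl fun β _ => ?_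
    rw [card_filter]
  rw [e1]
  refine card_le_mul_card_image_of_maps_to
    (f := fun z : ι × ι × ι × ι => ({z.2.2.1, z.2.2.2, z.1, z.2.1} : Finset ι)) ?_ 256 ?_
  · rintro ⟨α, β, x, y⟩ hz
    simp only [mem_filter, mem_product] at hz
    obtain ⟨⟨h1, h2, h3, h4⟩, hb⟩ := hz
    have hs : ({x, y, α, β} : Finset ι) ⊆ X :=
      insert_subset h3 (insert_subset h4 (insert_subset (hA h1) (singleton_subset_iff.2 (hB h2))))
    simp only [mem_filter, mem_powersetCard]
    refine ⟨⟨hs, le_antisymm card_le_four ?_⟩, hb⟩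
    by_contra hc
    exact h _ hs (by omega) hb
  · intro S hS
    simp only [mem_filter, mem_powersetCard] at hS
    have e2 : #(S ×ˢ S ×ˢ S ×ˢ S) = 256 := by
      rw [card_product, card_product, card_product, hS.1.2]
    rw [← e2]
    refine card_le_card ?_
    rintro ⟨α, β, x, y⟩ hz
    have h1 := (mem_filter.1 hz).2
    simp only at h1
    simp only [mem_product, ← h1]
    simp

end Pool.Agent.MP_ff3a4f_co.Pl
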