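import Pool.Agent.MP_ff3a4f_co.pl.Spec

/-!
# Counting cells by columns and rows
-/

set_option autoImplicit false

namespace Pool.Agent.MP_ff3a4f_co.Pl

open Finset
open scoped Classical

theorem young_rank {ι : Type} {s : Finset ι} {τ : ι → ℝ} (h : Set.InjOn τ s) :
    Set.InjOn (fun x => #{y ∈ s | τ y < τ x}) s := by
  have key : ∀ x ∈ s, ∀ z, τ x < τ z → #{y ∈ s | τ y < τ x} < #{y ∈ s | τ y < τ z} :=
    fun x hx z hz => card_lt_card ⟨fun y hy => mem_filter.2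
      ⟨(mem_filter.1 hy).1, (mem_filter.1 hy).2.trans hz⟩,
      fun hs => lt_irrefl _ (mem_filter.1 (hs (mem_filter.2 ⟨hx, hz⟩))).2⟩
  intro x hx z hz e
  rcases lt_trichotomy (τ x) (τ z) with l | l | l
  · exact absurd e (key x hx z l).ne
  · exact h hx hz l
  · exact absurd e (key z hz x l).ne'

theorem young_pick {ι : Type} {s : Finset ι} {τ : ι → ℝ} (h : Set.InjOn τ s) (t : ℝ) {j : ℕ}
    (hj : j < #{a ∈ s | t < τ a}) : ∃ a ∈ s, t < τ a ∧ #{b ∈ s | τ a < τ b} = j := by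
  have h1 := young_rank (τ := fun a => -τ a) fun a ha b hb e => h ha hb (neg_injective e)
  simp only [neg_lt_neg_iff] at h1
  have h2 := surjOn_of_injOn_of_card_le (s := {a ∈ s | t < τ a})
    (t := range #{a ∈ s | t < τ a}) (fun a => #{b ∈ s | τ a < τ b})
    (fun a ha => mem_coe.2 (mem_range.2 (card_lt_card ⟨fun b hb => mem_filter.2
      ⟨(mem_filter.1 hb).1, (mem_filter.1 ha).2.trans (mem_filter.1 hb).2⟩,
      fun hs => lt_irrefl _ (mem_filter.1 (hs ha)).2⟩)))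
    (h1.mono (coe_subset.2 (filter_subset _ _))) (card_range _).le
  obtain ⟨a, ha, e⟩ := h2 (mem_coe.2 (mem_range.2 hj))
  exact ⟨a, (mem_filter.1 ha).1, (mem_filter.1 ha).2, e⟩

theorem young_split {ι : Type} (s : Finset ι) (p g : ι → Prop) :
    #{a ∈ s | p a} ≤ #{a ∈ s | p a ∧ ¬ g a} + #{a ∈ s | g a} := by
  refine le_trans (card_le_card fun a ha => ?_) (card_union_le _ _)
  simp only [mem_union, mem_filter] at ha ⊢
  tauto

theorem young : YoungS := by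
  intro ι Rs Ls Q τ Γ K Δ hR hL g1 g2 hQ h
  have hp : ∀ y, ∃ a, y ∈ Q → a ∈ Ls ∧ τ y < τ a ∧
      #{b ∈ Ls | τ a < τ b} + #{z ∈ Rs | τ z < τ y} + 1 = K := fun y => by
    by_cases hy : y ∈ Q
    · obtain ⟨h1, h2⟩ := h y hy
      obtain ⟨a, ha, h3, h4⟩ := young_pick hL (τ y) (j := K - #{z ∈ Rs | τ z < τ y} - 1)
        (by omega)
      exact ⟨a, fun _ => ⟨ha, h3, by omega⟩⟩
    · exact ⟨y, fun hy' => absurd hy' hy⟩
  choose a ha using hp
  have inj : Set.InjOn a Q := fun y hy z hz e => by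
    have h1 := (ha y hy).2.2
    have h2 := (ha z hz).2.2
    rw [e] at h1
    exact young_rank hR (hQ hy) (hQ hz) (by simp only; omega)
  have c1 : ∑ x ∈ Q, #{b ∈ Ls | τ x < τ b ∧ ¬ Γ x b} ≤
      #{e ∈ Rs ×ˢ Ls | τ e.1 < τ e.2 ∧ ¬ Γ e.1 e.2} := by
    refine (sum_le_sum_of_subset hQ).trans_eq ?_
    simp only [card_filter]
    rw [sum_product]
  have c2 : ∑ y ∈ Q, #{x ∈ Rs | τ x < τ (a y) ∧ ¬ Γ x (a y)} ≤
      #{e ∈ Rs ×ˢ Ls | τ e.1 < τ e.2 ∧ ¬ Γ e.1 e.2} := by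
    rw [← sum_image (f := fun b => #{x ∈ Rs | τ x < τ b ∧ ¬ Γ x b}) inj]
    refine (sum_le_sum_of_subset (image_subset_iff.2 fun y hy => (ha y hy).1)).trans_eq ?_
    simp only [card_filter]
    rw [sum_product_right]
  have c3 : ∀ y ∈ Q, K + 1 ≤ #{b ∈ Ls | τ y < τ b ∧ ¬ Γ y b} +
      #{x ∈ Rs | τ x < τ (a y) ∧ ¬ Γ x (a y)} + 2 * Δ := fun y hy => by
    obtain ⟨h1, h2, -⟩ := ha y hy
    have e1 := young_split Ls (fun b => τ y < τ b) (Γ y)
    have e2 := young_split Rs (fun x => τ x < τ (a y)) fun x => Γ x (a y)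
    have e3 : #{z ∈ Rs | τ z < τ y} < #{x ∈ Rs | τ x < τ (a y)} :=
      card_lt_card ⟨fun z hz => mem_filter.2
        ⟨(mem_filter.1 hz).1, (mem_filter.1 hz).2.trans h2⟩,
        fun hs => lt_irrefl _ (mem_filter.1 (hs (mem_filter.2 ⟨hQ hy, h2⟩))).2⟩
    have e4 := g1 y (hQ hy)
    have e5 := g2 _ h1
    have e6 := (h y hy).2
    omega
  have c4 := sum_le_sum c3
  rw [sum_const, sum_add_distrib, sum_add_distrib, sum_const, smul_eq_mul, smul_eq_mul,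
    mul_comm _ (2 * Δ)] at c4
  omega

end Pool.Agent.MP_ff3a4f_co.Pl
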