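import Pool.Agent.MP_ff3a4f_co.pl.Pair
import Pool.Agent.MP_ff3a4f_co.pl.Graph
import Pool.Agent.MP_ff3a4f_co.pl.Young
import Pool.Agent.MP_ff3a4f_co.pl.Dep
import Pool.Agent.MP_ff3a4f_co.pl.Sum
import Pool.Agent.MP_ff3a4f_co.pl.Low

/-!
# Assembly
-/

set_option autoImplicit false

namespace Pool.Agent.MP_ff3a4f_co.Pl

open Finset Pool.Agent.MP_ff3a4f_co.Kirchberger
open scoped Classical

/-- The count of bad four-point sets. -/
theorem count (A B : Finset P2) (N K : ℕ) (θ : ℝ) (hθ : 0 < θ) (hθ' : θ ≤ 1 / 9)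
    (hAB : Disjoint A B) (hA : #A = N) (hB : #B = N) (gp : GeneralPosition (A ∪ B))
    (hyp : ∀ A' ⊆ A, ∀ B' ⊆ B, Separated A' B' → #A' + K ≤ #A ∨ #B' + K ≤ #B) :
    (N : ℝ) ^ 2 * ((1 - 9 * θ) * (K : ℝ) ^ 3) ≤
      (N + 256 * K / θ ^ 2) * (((2 * N).choose 4 : ℝ) - #(goodSets A B)) := by
  have hX : #(A ∪ B) = 2 * N := by rw [card_union_of_disjoint hAB, hA, hB]; ring
  set Z := #{S ∈ (A ∪ B).powersetCard 4 | Bad A B S} with hZ
  have hsum : #(goodSets A B) + Z = (2 * N).choose 4 := by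
    rw [← hX, ← card_powersetCard, ← card_filter_add_card_filter_not
      (s := (A ∪ B).powersetCard 4) (fun S => Separated (A ∩ S) (B ∩ S))]
    congr
    rw [hZ]
    congr 1
    ext S
    simp only [mem_filter, Bad]
  have hZ' : ((2 * N).choose 4 : ℝ) - #(goodSets A B) = Z := by
    rw [← hsum]; push_cast; ring
  have h1 := sum P2 (A ∪ B) A B (Bad A B) hAB subset_union_left subset_union_right
    fun F hF h5 => two A B F hAB gp hF h5
  have h2 := gam P2 (A ∪ B) A B (Bad A B) subset_union_left subset_union_right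
    fun S hS h3 h => h (separated_of_affineIndependent (by norm_num) _ _
      (hAB.mono inter_subset_left inter_subset_left)
      (gp _ (union_subset_union inter_subset_left inter_subset_left)
        ((card_le_card (union_subset inter_subset_right inter_subset_right)).trans h3)))
  rw [hX, ← hZ] at h1
  rw [← hZ] at h2
  have h3 := sum_le_sum fun α (hα : α ∈ A) => sum_le_sum fun β (hβ : β ∈ B) =>
    pair graph young both A B K θ hθ hθ' hAB gp hyp α hα β hβ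
  simp only [sum_const, nsmul_eq_mul, hA, hB, sum_add_distrib, ← mul_sum] at h3
  have h1' := (Nat.cast_le (α := ℝ)).2 h1
  have h2' := (Nat.cast_le (α := ℝ)).2 h2
  push_cast at h1' h2'
  have h4 := mul_le_mul_of_nonneg_left h2' (show (0 : ℝ) ≤ K / θ ^ 2 by positivity)
  rw [hZ']
  have e : (N + 256 * K / θ ^ 2) * (Z : ℝ) = N * Z + K / θ ^ 2 * (256 * Z) := by ring
  rw [e]
  linarith

theorem upper {η : ℝ} (hη : 0 < η) : ∃ ρ0 > 0, ∀ ρ : ℝ, 0 < ρ → ρ < ρ0 →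
    ∀ (N : ℕ) (A B : Finset P2), Disjoint A B → #A = N → #B = N → GeneralPosition (A ∪ B) →
      (1 - 3 * ρ ^ 3 / 2) * ((2 * N).choose 4 : ℝ) ≤ #(goodSets A B) →
      ∃ A' ⊆ A, ∃ B' ⊆ B, Separated A' B' ∧ (1 - (1 + η) * ρ) * N ≤ #A' ∧
        (1 - (1 + η) * ρ) * N ≤ #B' := by
  obtain ⟨θ, hθe⟩ : ∃ θ, θ = η / (10 + 9 * η) := ⟨_, rfl⟩
  have hθ : 0 < θ := by rw [hθe]; positivity
  have hθ1 : θ * (10 + 9 * η) = η := by rw [hθe]; field_simp
  have hθ2 : θ < 1 / 9 := by nlinarith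
  obtain ⟨τ, hτe⟩ : ∃ τ, τ = θ ^ 3 / 512 := ⟨_, rfl⟩
  have hτ : 0 < τ := by rw [hτe]; positivity
  have hτ1 : τ ≤ 1 := by
    have : θ ^ 3 ≤ 1 := pow_le_one₀ hθ.le (by linarith)
    linarith
  refine ⟨τ ^ 2 / (1 + η), by positivity, fun ρ hρ hρ0 N A B hAB hA hB gp hgood => ?_⟩
  rw [lt_div_iff₀ (by positivity)] at hρ0
  by_contra hcon
  push Not at hcon
  rcases Nat.eq_zero_or_pos N with rfl | hN
  · have := hcon ∅ (empty_subset _) ∅ (empty_subset _)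
      (separated_of_weak (by norm_num) _ _ 0 0 (by simp) (by simp)) (by simp)
    simp at this
  have hN' : (0 : ℝ) < N := by exact_mod_cast hN
  set γ := (1 + η) * ρ with hγ
  have hγ0 : 0 < γ := by positivity
  have key : ∀ j : ℕ, j ≤ N → (j : ℝ) < (1 - γ) * N → j + (⌊γ * N⌋₊ + 1) ≤ N := fun j hj h => by
    obtain ⟨i, rfl⟩ := Nat.exists_eq_add_of_le hj
    have : ⌊γ * ((j + i : ℕ) : ℝ)⌋₊ < i := by
      rw [Nat.floor_lt (by positivity)]
      push_cast at h ⊢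
      linarith
    omega
  have hc := count A B N (⌊γ * N⌋₊ + 1) θ hθ hθ2.le hAB hA hB gp fun A' hA' B' hB' hs => by
    rw [hA, hB]
    rcases lt_or_ge (#A' : ℝ) ((1 - γ) * N) with h | h
    · exact Or.inl (key _ (hA ▸ card_le_card hA') h)
    · exact Or.inr (key _ (hB ▸ card_le_card hB') (hcon A' hA' B' hB' hs h))
  have k1 : γ * N < ((⌊γ * N⌋₊ + 1 : ℕ) : ℝ) := by push_cast; exact Nat.lt_floor_add_one _
  have k2 : ((⌊γ * N⌋₊ + 1 : ℕ) : ℝ) ≤ γ * N + 1 := by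
    push_cast; linarith [Nat.floor_le (show 0 ≤ γ * N by positivity)]
  generalize ((⌊γ * N⌋₊ + 1 : ℕ) : ℝ) = K at hc k1 k2
  have hK : 0 < K := lt_trans (by positivity) k1
  have hle : #(goodSets A B) ≤ (2 * N).choose 4 := by
    rw [← show #(A ∪ B) = 2 * N by rw [card_union_of_disjoint hAB, hA, hB]; ring,
      ← card_powersetCard]
    exact card_filter_le _ _
  obtain ⟨Z, hZ⟩ := Nat.exists_eq_add_of_le hle
  have hch : (((2 * N).choose 4 : ℕ) : ℝ) ≤ ((2 * N : ℕ) : ℝ) ^ 4 / ((4 : ℕ).factorial : ℝ) :=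
    Nat.choose_le_pow_div _ _
  have hZ' : ((2 * N).choose 4 : ℝ) - #(goodSets A B) = Z := by rw [hZ]; push_cast; ring
  have hZ1 : (Z : ℝ) ≤ ρ ^ 3 * N ^ 4 := by
    have h1 := mul_le_mul_of_nonneg_left hch (show 0 ≤ 3 * ρ ^ 3 / 2 by positivity)
    simp only [Nat.factorial] at h1
    push_cast at h1
    nlinarith
  rw [hZ'] at hc
  have h9 : 0 < 1 - 9 * θ := by linarith
  rcases Nat.eq_zero_or_pos Z with rfl | hZ0
  · simp only [Nat.cast_zero, mul_zero] at hc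
    exact absurd hc (not_le.2 (by positivity))
  have hZ2 : (1 : ℝ) ≤ Z := by exact_mod_cast hZ0
  have hγτ : γ ≤ τ := by nlinarith
  have hρτ : ρ ≤ τ ^ 2 := by nlinarith
  have hNτ : 1 ≤ τ * N := by
    by_contra h
    push Not at h
    have h1 : (τ * N) ^ 4 < 1 := pow_lt_one₀ (by positivity) h (by norm_num)
    have h2 : ρ ^ 3 ≤ (τ ^ 2) ^ 3 := pow_le_pow_left₀ hρ.le hρτ 3
    have h3 : (τ ^ 2) ^ 3 ≤ τ ^ 4 := by
      rw [← pow_mul]
      exact pow_le_pow_of_le_one hτ.le hτ1 (by norm_num)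
    have h4 := mul_le_mul_of_nonneg_right (h2.trans h3) (show (0 : ℝ) ≤ N ^ 4 by positivity)
    rw [mul_pow] at h1
    linarith
  have h5 : 256 * K / θ ^ 2 ≤ θ * N := by
    rw [div_le_iff₀ (by positivity)]
    have : K ≤ 2 * τ * N := by nlinarith
    rw [hτe] at this
    nlinarith
  have h6 : (N + 256 * K / θ ^ 2) * (Z : ℝ) ≤ (N + θ * N) * (ρ ^ 3 * N ^ 4) :=
    mul_le_mul (by linarith) hZ1 (by positivity) (by positivity)
  have h7 : (γ * N) ^ 3 < K ^ 3 := pow_lt_pow_left₀ k1 (by positivity) (by norm_num)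
  have h8 : (N : ℝ) ^ 2 * ((1 - 9 * θ) * (γ * N) ^ 3) < N ^ 2 * ((1 - 9 * θ) * K ^ 3) := by gcongr
  have h10 : 1 + θ ≤ (1 - 9 * θ) * (1 + η) ^ 3 := by
    have : 1 + η ≤ (1 + η) ^ 3 := le_self_pow₀ (by linarith) (by norm_num)
    nlinarith
  have h11 := mul_le_mul_of_nonneg_right h10 (show 0 ≤ ρ ^ 3 * (N : ℝ) ^ 5 by positivity)
  have e1 : (N : ℝ) ^ 2 * ((1 - 9 * θ) * (γ * N) ^ 3) =
      (1 - 9 * θ) * (1 + η) ^ 3 * (ρ ^ 3 * N ^ 5) := by rw [hγ]; ring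
  have e2 : (N + θ * N) * (ρ ^ 3 * (N : ℝ) ^ 4) = (1 + θ) * (ρ ^ 3 * N ^ 5) := by ring
  linarith

theorem lower {η : ℝ} (hη : 0 < η) : ∃ ρ0 > 0, ∀ ρ : ℝ, 0 < ρ → ρ < ρ0 →
    ∃ (N : ℕ) (A B : Finset P2), Disjoint A B ∧ #A = N ∧ #B = N ∧ GeneralPosition (A ∪ B) ∧
      (1 - 3 * ρ ^ 3 / 2) * ((2 * N).choose 4 : ℝ) ≤ #(goodSets A B) ∧
      ∀ A' ⊆ A, ∀ B' ⊆ B, Separated A' B' → (1 - (1 - η) * ρ) * N ≤ #A' →
        (1 - (1 - η) * ρ) * N ≤ #B' → False := by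
  obtain ⟨e, he, he1, heη⟩ : ∃ e : ℝ, 0 < e ∧ e ≤ 1 ∧ e ≤ η :=
    ⟨min η 1, lt_min hη one_pos, min_le_right _ _, min_le_left _ _⟩
  refine ⟨e / 324, by positivity, fun ρ hρ hρ0 => ?_⟩
  obtain ⟨N, hN⟩ := exists_nat_ge (4 / (e * ρ))
  rw [div_le_iff₀ (by positivity)] at hN
  have hN0 : (0 : ℝ) ≤ N := Nat.cast_nonneg _
  have heN : 24 ≤ e * N := by nlinarith [mul_nonneg he.le hN0]
  have hN24 : (24 : ℝ) ≤ N := by nlinarith
  have k1 : (1 - e) * ρ * N < ((⌊(1 - e) * ρ * N⌋₊ + 1 : ℕ) : ℝ) := by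
    push_cast; exact Nat.lt_floor_add_one _
  have k2 : ((⌊(1 - e) * ρ * N⌋₊ + 1 : ℕ) : ℝ) + 1 ≤ (1 - e / 2) * ρ * N := by
    push_cast
    have := Nat.floor_le (show 0 ≤ (1 - e) * ρ * N from
      mul_nonneg (mul_nonneg (by linarith) hρ.le) hN0)
    nlinarith
  have k0 : 1 ≤ ⌊(1 - e) * ρ * N⌋₊ + 1 := by omega
  generalize ⌊(1 - e) * ρ * N⌋₊ + 1 = K at k0 k1 k2
  have hK0 : (0 : ℝ) ≤ K := Nat.cast_nonneg _
  have hρN : 0 ≤ ρ * N := by positivity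
  have k3 : (K : ℝ) ≤ ρ * N := by nlinarith
  have k4 : 3 * K ≤ N := by
    have : ((3 * K : ℕ) : ℝ) ≤ N := by push_cast; nlinarith
    exact_mod_cast this
  obtain ⟨A, B, hAB, hA, hB, gp, hgood, hsep⟩ := low K N k0 k4
  refine ⟨N, A, B, hAB, hA, hB, gp, ?_, fun A' hA' B' hB' hs h1 h2 => ?_⟩
  · have h1 := (Nat.cast_le (α := ℝ)).2 hgood
    push_cast at h1
    have h2 : ((2 * N + 1 - 4 : ℕ) : ℝ) ^ 4 / ((4 : ℕ).factorial : ℝ) ≤ ((2 * N).choose 4 : ℝ) :=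
      Nat.pow_le_choose _ _
    have hN2 : 24 ≤ N := by exact_mod_cast hN24
    have h3 : ((2 * N + 1 - 4 : ℕ) : ℝ) = 2 * N - 3 := by
      rw [Nat.cast_sub (by omega)]; push_cast; ring
    rw [h3] at h2
    simp only [Nat.factorial] at h2
    push_cast at h2
    have h4 : 16 * (N : ℝ) ^ 4 - 96 * N ^ 3 ≤ (2 * N - 3) ^ 4 := by nlinarith
    have h5 : 2 / 3 * ((N : ℝ) ^ 4 - 6 * N ^ 3) ≤ ((2 * N).choose 4 : ℝ) := by linarith
    have h6 := mul_le_mul_of_nonneg_left h5 (show 0 ≤ 3 * ρ ^ 3 / 2 by positivity)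
    obtain ⟨κ, hκ⟩ : ∃ κ, κ = (1 - e / 2) * ρ * N := ⟨_, rfl⟩
    rw [← hκ] at k2
    have h7 : (K : ℝ) ^ 2 * (K + 1) ≤ κ ^ 2 * κ :=
      mul_le_mul (pow_le_pow_left₀ hK0 (by linarith) 2) k2 (by positivity) (by positivity)
    have h8 : (K : ℝ) ^ 3 * K ≤ κ ^ 3 * (ρ * N) :=
      mul_le_mul (pow_le_pow_left₀ hK0 (by linarith) 3) k3 hK0 (pow_nonneg (by linarith) 3)
    have h9 : κ ^ 3 ≤ (1 - e / 2) * (ρ * N) ^ 3 := by
      rw [hκ, mul_assoc, mul_pow]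
      exact mul_le_mul_of_nonneg_right (pow_le_of_le_one (by linarith) (by linarith) (by norm_num))
        (by positivity)
    have h10 : κ ^ 3 * (N * (1 + 81 * ρ)) ≤ (1 - e / 2) * (ρ * N) ^ 3 * (N * (1 + 81 * ρ)) :=
      mul_le_mul_of_nonneg_right h9 (by positivity)
    have h11 : (1 - e / 2) * (1 + 81 * ρ) * N ≤ N - 6 := by
      have : (1 - e / 2) * (1 + 81 * ρ) ≤ 1 - e / 4 := by nlinarith
      nlinarith [mul_le_mul_of_nonneg_right this hN0]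
    have h12 := mul_le_mul_of_nonneg_left h11 (show 0 ≤ (ρ * N) ^ 3 by positivity)
    have h13 := mul_le_mul_of_nonneg_right h7 hN0
    nlinarith
  · have h3 : (1 - η) * ρ * N ≤ (1 - e) * ρ * N := by nlinarith
    rcases hsep A' hA' B' hB' hs with h | h <;>
    · have h4 := (Nat.cast_le (α := ℝ)).2 h
      push_cast at h4
      nlinarith

end Pool.Agent.MP_ff3a4f_co.Pl
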