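import Pool.Agent.MP_ff3a4f_co.pl.Core

/-!
# The bound for one pair `α`, `β`
-/

set_option autoImplicit false

namespace Pool.Agent.MP_ff3a4f_co.Pl

open Finset Pool.Agent.MP_ff3a4f_co.Kirchberger
open scoped Classical

lemma inner2 (w p : P2) : inner ℝ w p = w 0 * p 0 + w 1 * p 1 := by
  simp [PiLp.inner_apply, Fin.sum_univ_two, mul_comm]

lemma ext2 {p q : P2} (h0 : p 0 = q 0) (h1 : p 1 = q 1) : p = q := by
  ext i
  fin_cases i
  exacts [h0, h1]

lemma gp2 {X : Finset P2} (hG : GeneralPosition X) {p q r : P2} (hp : p ∈ X) (hq : q ∈ X)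
    (hr : r ∈ X) (pq : p ≠ q) (pr : p ≠ r) (qr : q ≠ r) :
    (q 0 - p 0) * (r 1 - p 1) ≠ (r 0 - p 0) * (q 1 - p 1) := fun h => by
  have h1 := affineIndependent_iff.1 (hG {p, q, r}
    (by simp only [insert_subset_iff, singleton_subset_iff]; exact ⟨hp, hq, hr⟩) card_le_three)
  have key : ∀ a b c : ℝ, a + b + c = 0 → a • p + b • q + c • r = 0 → c = 0 := by
    intro a b c h2 h3
    have e : ∀ f : P2 → P2, ∑ z ∈ ({p, q, r} : Finset P2), f z = f p + f q + f r := fun f => by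
      rw [sum_insert (by simp [pq, pr]), sum_pair qr, add_assoc]
    have e' : ∀ f : P2 → ℝ, ∑ z ∈ ({p, q, r} : Finset P2), f z = f p + f q + f r := fun f => by
      rw [sum_insert (by simp [pq, pr]), sum_pair qr, add_assoc]
    have h4 := h1 univ (fun z => if (z : P2) = p then a else if (z : P2) = q then b else c)
      (by
        rw [sum_coe_sort _ fun z => if z = p then a else if z = q then b else c, e']
        simpa [pq.symm, pr.symm, qr.symm] using h2)
      (by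
        rw [sum_coe_sort _ fun z => (if z = p then a else if z = q then b else c) • z, e]
        simpa [pq.symm, pr.symm, qr.symm] using h3) ⟨r, by simp⟩ (mem_univ _)
    simpa [pr.symm, qr.symm] using h4
  have k0 := key (r 0 - q 0) (p 0 - r 0) (q 0 - p 0) (by ring) (ext2 (by simp; ring)
    (by simp; linear_combination h))
  have k1 := key (r 1 - q 1) (p 1 - r 1) (q 1 - p 1) (by ring) (ext2
    (by simp; linear_combination -h) (by simp; ring))
  exact pq (ext2 (by linarith) (by linarith))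

lemma erase5 {ι : Type} [DecidableEq ι] {a b p q r : ι} (h1 : a ≠ p) (h2 : b ≠ p) (h3 : q ≠ p) (h4 : r ≠ p)
    {F : Finset ι} (hF : ∀ z, z ∈ F ↔ z = a ∨ z = b ∨ z = p ∨ z = q ∨ z = r) :
    F.erase p = {q, r, a, b} := by
  ext z
  simp only [mem_erase, mem_insert, mem_singleton, hF]
  constructor
  · tauto
  · rintro (rfl | rfl | rfl | rfl) <;> tauto

lemma or5 {a b p q r : Prop} : (a ∨ b ∨ p ∨ q ∨ r ↔ a ∨ b ∨ q ∨ p ∨ r) ∧
    (a ∨ b ∨ p ∨ q ∨ r ↔ a ∨ b ∨ r ∨ p ∨ q) := by tauto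

lemma tri (hb : BothS) {A B : Finset P2} (hAB : Disjoint A B) {α β p q r : P2} (hα : α ∈ A)
    (hβ : β ∈ B) (hp : p ∈ A ∪ B) (hq : q ∈ A ∪ B) (hr : r ∈ A ∪ B) (pq : p ≠ q) (pr : p ≠ r)
    (qr : q ≠ r) {a b c ρ : ℝ} (sp : (p ∈ A → 0 < a) ∧ (p ∈ B → a < 0))
    (sq : (q ∈ A → 0 < b) ∧ (q ∈ B → b < 0)) (sr : (r ∈ A → 0 < c) ∧ (r ∈ B → c < 0))
    (hρ : 0 < ρ) (h0 : a + b + c = 0) (hv : a • p + b • q + c • r + ρ • α - ρ • β = 0)
    (n1 : ¬ Bad A B {p, q, α, β}) (n2 : ¬ Bad A B {p, r, α, β}) (n3 : ¬ Bad A B {q, r, α, β}) :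
    α ∉ ({p, q, r} : Finset P2) ∧ β ∉ ({p, q, r} : Finset P2) ∧
      Bad A B (insert α {p, q, r}) ∧ Bad A B (insert β {p, q, r}) := by
  have key : ∀ S : Finset P2, p ∈ S → q ∈ S → r ∈ S → α ∈ S → β ∈ S → Bad A B S := by
    rintro S m1 m2 m3 m4 m5 ⟨w, k, -, h1, h2⟩
    have pos : ∀ (z : P2) (t : ℝ), z ∈ A ∪ B → z ∈ S → (z ∈ A → 0 < t) ∧ (z ∈ B → t < 0) →
        0 < t * (inner ℝ w z - k) := fun z t hz hS ht => by
      rcases mem_union.1 hz with h | h
      · exact mul_pos (ht.1 h) (sub_pos.2 (h1 z (mem_inter.2 ⟨h, hS⟩)))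
      · exact mul_pos_of_neg_of_neg (ht.2 h) (sub_neg.2 (h2 z (mem_inter.2 ⟨h, hS⟩)))
    have e := congrArg (fun u => inner ℝ w u) hv
    simp only [inner_sub_right, inner_add_right, real_inner_smul_right, inner_zero_right] at e
    have p1 := pos p a hp m1 sp
    have p2 := pos q b hq m2 sq
    have p3 := pos r c hr m3 sr
    have p4 := mul_pos hρ (sub_pos.2 ((h2 β (mem_inter.2 ⟨hβ, m5⟩)).trans
      (h1 α (mem_inter.2 ⟨hα, m4⟩))))
    have : a * (inner ℝ w p - k) + b * (inner ℝ w q - k) + c * (inner ℝ w r - k) +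
        ρ * (inner ℝ w α - inner ℝ w β) = 0 := by linear_combination e - k * h0
    linarith
  have αβ : α ≠ β := fun h => disjoint_left.1 hAB hα (h ▸ hβ)
  have αp : α ≠ p := fun h => n3 (key _ (by simp [h]) (by simp) (by simp) (by simp) (by simp))
  have αq : α ≠ q := fun h => n2 (key _ (by simp) (by simp [h]) (by simp) (by simp) (by simp))
  have αr : α ≠ r := fun h => n1 (key _ (by simp) (by simp) (by simp [h]) (by simp) (by simp))
  have βp : β ≠ p := fun h => n3 (key _ (by simp [h]) (by simp) (by simp) (by simp) (by simp))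
  have βq : β ≠ q := fun h => n2 (key _ (by simp) (by simp [h]) (by simp) (by simp) (by simp))
  have βr : β ≠ r := fun h => n1 (key _ (by simp) (by simp) (by simp [h]) (by simp) (by simp))
  have m1 : α ∉ ({p, q, r} : Finset P2) := by simp [αp, αq, αr]
  have m2 : β ∉ ({p, q, r} : Finset P2) := by simp [βp, βq, βr]
  have m3 : α ∉ (insert β {p, q, r} : Finset P2) := by simp [αβ, αp, αq, αr]
  have m4 : p ∉ ({q, r} : Finset P2) := by simp [pq, pr]
  set F : Finset P2 := insert α (insert β {p, q, r}) with hF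
  have mF : ∀ z, z ∈ F ↔ z = α ∨ z = β ∨ z = p ∨ z = q ∨ z = r := fun z => by simp [hF]
  let W : P2 → ℝ := fun z =>
    if z = α then ρ else if z = β then -ρ else if z = p then a else if z = q then b else c
  have W1 : W α = ρ := by simp [W]
  have W2 : W β = -ρ := by simp [W, αβ.symm]
  have W3 : W p = a := by simp [W, αp.symm, βp.symm]
  have W4 : W q = b := by simp [W, αq.symm, βq.symm, pq.symm]
  have W5 : W r = c := by simp [W, αr.symm, βr.symm, pr.symm, qr.symm]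
  have hbb := hb A B F W hAB
    (fun z hz => by
      rcases (mF z).1 hz with rfl | rfl | rfl | rfl | rfl
      exacts [mem_union_left _ hα, mem_union_right _ hβ, hp, hq, hr])
    (by rw [hF, card_insert_of_notMem m3, card_insert_of_notMem m2, card_insert_of_notMem m4,
      card_pair qr])
    (fun z hz hA => by
      rcases (mF z).1 hz with rfl | rfl | rfl | rfl | rfl
      exacts [W1 ▸ hρ, absurd hβ (disjoint_left.1 hAB hA), W3 ▸ sp.1 hA, W4 ▸ sq.1 hA,
        W5 ▸ sr.1 hA])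
    (fun z hz hB => by
      rcases (mF z).1 hz with rfl | rfl | rfl | rfl | rfl
      exacts [absurd hB (disjoint_left.1 hAB hα), W2 ▸ neg_neg_of_pos hρ, W3 ▸ sp.2 hB,
        W4 ▸ sq.2 hB, W5 ▸ sr.2 hB])
    (by
      rw [hF, sum_insert m3, sum_insert m2, sum_insert m4, sum_pair qr, W1, W2, W3, W4, W5]
      linarith)
    (by
      rw [hF, sum_insert m3, sum_insert m2, sum_insert m4, sum_pair qr, W1, W2, W3, W4, W5, ← hv,
        neg_smul]
      abel)
  have hn : ∀ z ∈ F, z ≠ α → z ≠ β → ¬ Bad A B (F.erase z) := fun z hz h1 h2 => by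
    rcases (mF z).1 hz with rfl | rfl | rfl | rfl | rfl
    · exact absurd rfl h1
    · exact absurd rfl h2
    · rwa [erase5 αp βp pq.symm pr.symm mF]
    · rwa [erase5 (q := p) (r := r) αq βq pq qr.symm fun z => (mF z).trans or5.1]
    · rwa [erase5 (q := p) (r := q) αr βr pr qr fun z => (mF z).trans or5.2]
  have b1 := hbb α ((mF _).2 (.inl rfl)) β ((mF _).2 (.inr (.inl rfl))) αβ hn
  have b2 := hbb β ((mF _).2 (.inr (.inl rfl))) α ((mF _).2 (.inl rfl)) αβ.symm
    fun z hz h1 h2 => hn z hz h2 h1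
  rw [hF, erase_insert m3] at b1
  rw [hF, erase_insert_of_ne αβ, erase_insert m2] at b2
  exact ⟨m1, m2, b2, b1⟩

lemma sorted_inj {ι : Type} [DecidableEq ι] {x : ι → ℝ} {p q r p' q' r' : ι}
    (h1 : x p < x q) (h2 : x q < x r)
    (h1' : x p' < x q') (h2' : x q' < x r') (h : ({p, q, r} : Finset ι) = {p', q', r'}) :
    p = p' ∧ q = q' ∧ r = r' := by
  have m := fun z => Finset.ext_iff.1 h z
  simp only [mem_insert, mem_singleton] at m
  have a1 := (m p).1 (by tauto)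
  have a2 := (m q).1 (by tauto)
  have a3 := (m r).1 (by tauto)
  rcases a1 with rfl | rfl | rfl <;> rcases a2 with rfl | rfl | rfl <;>
    rcases a3 with rfl | rfl | rfl <;> first | exact ⟨rfl, rfl, rfl⟩ | (exfalso; linarith)

lemma pair_num {θ : ℝ} (hθ : 0 < θ) (hθ' : θ ≤ 1 / 9) {K h g M : ℕ}
    (h1 : h * (⌊θ * K⌋₊ + 1) ≤ g)
    (h2 : (K - h - ⌊θ * K⌋₊) ^ 2 * (K - h - ⌊θ * K⌋₊ + 1 - 2 * ⌊θ * K⌋₊) ≤ 2 * M) :
    (1 - 9 * θ) * (K : ℝ) ^ 3 ≤ 2 * (M : ℝ) + K / θ ^ 2 * (g : ℝ) := by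
  have hK : (0 : ℝ) ≤ K := Nat.cast_nonneg _
  have hM : (0 : ℝ) ≤ M := Nat.cast_nonneg _
  have hg : (0 : ℝ) ≤ g := Nat.cast_nonneg _
  have d1 : (⌊θ * K⌋₊ : ℝ) ≤ θ * K := Nat.floor_le (by positivity)
  have d2 : θ * K < ⌊θ * K⌋₊ + 1 := Nat.lt_floor_add_one _
  generalize ⌊θ * K⌋₊ = Δ at *
  have hK3 : (0 : ℝ) ≤ (K : ℝ) ^ 3 := by positivity
  rcases le_total (g : ℝ) (θ ^ 2 * K ^ 2) with k | k
  · have h3 : (h : ℝ) * (Δ + 1) ≤ g := by exact_mod_cast h1
    have h4 : (h : ℝ) ≤ θ * K := by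
      by_contra h5
      push Not at h5
      have : θ * K * (Δ + 1) < h * (Δ + 1) := mul_lt_mul_of_pos_right h5 (by positivity)
      have : θ * K * (θ * K) ≤ θ * K * (Δ + 1) := mul_le_mul_of_nonneg_left d2.le (by positivity)
      nlinarith
    have h5 : ((h + 3 * Δ : ℕ) : ℝ) ≤ K := by push_cast; nlinarith
    have h6 : h + 3 * Δ ≤ K := by exact_mod_cast h5
    obtain ⟨j, rfl⟩ := Nat.exists_eq_add_of_le h6
    rw [show h + 3 * Δ + j - h - Δ = 2 * Δ + j by omega,
      show 2 * Δ + j + 1 - 2 * Δ = j + 1 by omega] at h2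
    have h7 : ((2 * Δ + j : ℝ)) ^ 2 * (j + 1) ≤ 2 * M := by exact_mod_cast h2
    set k' : ℝ := ((h + 3 * Δ + j : ℕ) : ℝ) with hk'
    have e : k' = h + 3 * Δ + j := by rw [hk']; push_cast; ring
    have h8 : (1 - 2 * θ) * k' ≤ 2 * Δ + j := by nlinarith
    have h9 : (1 - 4 * θ) * k' ≤ j + 1 := by nlinarith
    have h10 : ((1 - 2 * θ) * k') ^ 2 * ((1 - 4 * θ) * k') ≤ (2 * Δ + j : ℝ) ^ 2 * (j + 1) :=
      mul_le_mul (pow_le_pow_left₀ (mul_nonneg (by linarith) hK) h8 2) h9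
        (mul_nonneg (by linarith) hK) (by positivity)
    have h11 : (1 - 9 * θ) * k' ^ 3 ≤ (1 - 2 * θ) ^ 2 * (1 - 4 * θ) * k' ^ 3 :=
      mul_le_mul_of_nonneg_right (by nlinarith [mul_pos hθ hθ, mul_pos hθ (mul_pos hθ hθ)]) hK3
    have h12 : 0 ≤ k' / θ ^ 2 * g := by positivity
    nlinarith
  · have h3 : K / θ ^ 2 * (θ ^ 2 * K ^ 2) ≤ K / θ ^ 2 * (g : ℝ) :=
      mul_le_mul_of_nonneg_left k (by positivity)
    have h4 : K / θ ^ 2 * (θ ^ 2 * K ^ 2) = (K : ℝ) ^ 3 := by field_simp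
    nlinarith [mul_nonneg hθ.le hK3]

theorem pair (hG : GraphS) (hY : YoungS) (hb : BothS) : PairS := by
  intro A B K θ hθ hθ' hAB gp hyp α hα β hβ
  set M := #{T ∈ (A ∪ B).powersetCard 3 | α ∉ T ∧ β ∉ T ∧ Bad A B (insert α T) ∧
    Bad A B (insert β T)} with hM
  set g := #{e ∈ (A ∪ B) ×ˢ (A ∪ B) | Bad A B {e.1, e.2, α, β}} with hg
  have αβ : α ≠ β := fun h => disjoint_left.1 hAB hα (h ▸ hβ)
  obtain ⟨u, hu⟩ : ∃ u, u = β 0 - α 0 := ⟨_, rfl⟩
  obtain ⟨v, hv⟩ : ∃ v, v = β 1 - α 1 := ⟨_, rfl⟩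
  have hn : 0 < u ^ 2 + v ^ 2 := by
    by_contra h
    have u0 : u = 0 := by nlinarith [sq_nonneg u, sq_nonneg v]
    have v0 : v = 0 := by nlinarith [sq_nonneg u, sq_nonneg v]
    exact αβ (ext2 (by linarith) (by linarith))
  let x : P2 → ℝ := fun p => p 0 * v - p 1 * u
  let y : P2 → ℝ := fun p => p 0 * u + p 1 * v
  let Γ : P2 → P2 → Prop := fun p q => Bad A B {p, q, α, β}
  have hs : ∀ p q, Γ p q → Γ q p := fun p q h => by
    simp only [Γ] at h ⊢
    rwa [insert_comm]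
  set Δ := ⌊θ * K⌋₊ with hΔ
  set H := {p ∈ A ∪ B | Δ < #{q ∈ A ∪ B | Γ p q}} with hH
  have hHg : #H * (Δ + 1) ≤ g := by
    rw [hg, card_prod_filter, ← smul_eq_mul]
    refine (card_nsmul_le_sum H (fun p => #{q ∈ A ∪ B | Γ p q}) _
      fun p hp => (mem_filter.1 hp).2).trans ?_
    exact sum_le_sum_of_subset (filter_subset _ _)
  have sub : ∀ p ∈ A \ H ∪ B \ H, p ∈ A ∪ B ∧ p ∉ H := fun p hp => by
    rcases mem_union.1 hp with h | h
    · exact ⟨mem_union_left _ (mem_sdiff.1 h).1, (mem_sdiff.1 h).2⟩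
    · exact ⟨mem_union_right _ (mem_sdiff.1 h).1, (mem_sdiff.1 h).2⟩
  have hc := core hG hY (A \ H) (B \ H) x y Γ (K - #H) Δ
    (hAB.mono sdiff_subset sdiff_subset)
    (fun p hp q hq r hr pq pr qr h => gp2 gp (sub p hp).1 (sub q hq).1 (sub r hr).1 pq pr qr (by
      refine mul_left_cancel₀ hn.ne' ?_
      simp only [x, y] at h
      linear_combination h))
    (fun a ha b hb h1 h2 => by
      rintro ⟨w, k, -, s1, s2⟩
      have t1 := s1 a (mem_inter.2 ⟨(mem_sdiff.1 ha).1, by simp⟩)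
      have t2 := s1 α (mem_inter.2 ⟨hα, by simp⟩)
      have t3 := s2 b (mem_inter.2 ⟨(mem_sdiff.1 hb).1, by simp⟩)
      have t4 := s2 β (mem_inter.2 ⟨hβ, by simp⟩)
      rw [inner2] at t1 t2 t3 t4
      simp only [x, y] at h1 h2
      have t5 : w 0 * u + w 1 * v < 0 := by rw [hu, hv]; linarith
      have t6 : (u ^ 2 + v ^ 2) * (w 0 * (a 0 - b 0) + w 1 * (a 1 - b 1)) =
          (w 0 * u + w 1 * v) * (a 0 * u + a 1 * v - (b 0 * u + b 1 * v)) := by
        linear_combination (w 0 * v - w 1 * u) * h1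
      have t7 := mul_pos hn (show 0 < w 0 * (a 0 - b 0) + w 1 * (a 1 - b 1) by linarith)
      have t8 := mul_nonpos_of_nonpos_of_nonneg t5.le (sub_nonneg.2 h2)
      linarith)
    hs
    (fun p hp => by
      have h1 := (sub p hp).2
      rw [hH, mem_filter, not_and, not_lt] at h1
      exact (card_le_card (filter_subset_filter _ fun q hq => (sub q hq).1)).trans
        (h1 (sub p hp).1))
    (fun σ c => by
      have h := hyp {a ∈ A | y a - σ * x a < c} (filter_subset _ _)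
        {b ∈ B | c < y b - σ * x b} (filter_subset _ _)
        (separated_of_weak (by norm_num) _ _ !₂[-(u - σ * v), -(v + σ * u)] (-c)
          (fun p hp => by
            have := (mem_filter.1 hp).2
            simp only [x, y] at this
            rw [inner2]
            simp only [Matrix.cons_val_zero, Matrix.cons_val_one]
            linarith)
          (fun p hp => by
            have := (mem_filter.1 hp).2
            simp only [x, y] at this
            rw [inner2]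
            simp only [Matrix.cons_val_zero, Matrix.cons_val_one]
            linarith))
      refine h.imp (fun h1 => ?_) (fun h1 => ?_)
      · have h2 : #A ≤ #{a ∈ A | y a - σ * x a < c} + #{a ∈ A \ H | c ≤ y a - σ * x a} + #H := by
          refine le_trans (card_le_card fun p hp => ?_)
            ((card_union_le _ _).trans (Nat.add_le_add_right (card_union_le _ _) _))
          by_cases h3 : p ∈ H
          · exact mem_union_right _ h3
          · exact mem_union_left _ (mem_union.2 ((lt_or_ge _ c).imp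
              (fun h4 => mem_filter.2 ⟨hp, h4⟩) fun h4 => mem_filter.2 ⟨mem_sdiff.2 ⟨hp, h3⟩, h4⟩))
        omega
      · have h2 : #B ≤ #{b ∈ B | c < y b - σ * x b} + #{b ∈ B \ H | y b - σ * x b ≤ c} + #H := by
          refine le_trans (card_le_card fun p hp => ?_)
            ((card_union_le _ _).trans (Nat.add_le_add_right (card_union_le _ _) _))
          by_cases h3 : p ∈ H
          · exact mem_union_right _ h3
          · exact mem_union_left _ (mem_union.2 ((lt_or_ge c _).imp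
              (fun h4 => mem_filter.2 ⟨hp, h4⟩) fun h4 => mem_filter.2 ⟨mem_sdiff.2 ⟨hp, h3⟩, h4⟩))
        omega)
  -- a cell gives a triple
  have cell : ∀ p ∈ A ∪ B, ∀ q ∈ A ∪ B, ∀ r ∈ A ∪ B, x p < x q → x q < x r → ∀ s : ℝ,
      ((p ∈ A → 0 < s) ∧ (p ∈ B → s < 0)) → ((q ∈ A → s < 0) ∧ (q ∈ B → 0 < s)) →
      ((r ∈ A → 0 < s) ∧ (r ∈ B → s < 0)) → 0 < s * (sl x y q r - sl x y q p) →
      ¬ Γ q p → ¬ Γ q r → ¬ Γ p r →
      ({p, q, r} : Finset P2) ∈ {T ∈ (A ∪ B).powersetCard 3 | α ∉ T ∧ β ∉ T ∧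
        Bad A B (insert α T) ∧ Bad A B (insert β T)} := by
    intro p hp q hq r hr h1 h2 s sp sq sr h3 g1 g2 g3
    have pq : p ≠ q := fun h => h1.ne (h ▸ rfl)
    have qr : q ≠ r := fun h => h2.ne (h ▸ rfl)
    have pr : p ≠ r := fun h => (h1.trans h2).ne (h ▸ rfl)
    have d1 := sub_pos.2 h1
    have d2 := sub_pos.2 h2
    have d3 := sub_pos.2 (h1.trans h2)
    have e1 := sl_mul x y h1.ne'
    have e2 := sl_mul x y h2.ne
    obtain ⟨ρ, hρ⟩ : ∃ ρ, ρ = s * (sl x y q r - sl x y q p) * ((x q - x p) * (x r - x q)) /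
      (u ^ 2 + v ^ 2) := ⟨_, rfl⟩
    have hρ' : ρ * (u ^ 2 + v ^ 2) =
        s * ((x r - x q) * y p - (x r - x p) * y q + (x q - x p) * y r) := by
      rw [hρ, div_mul_cancel₀ _ hn.ne']
      linear_combination (-s * (x q - x p)) * e2 - (s * (x r - x q)) * e1
    refine mem_filter.2 ⟨mem_powersetCard.2 ⟨?_, card_eq_three.2 ⟨p, q, r, pq, pr, qr, rfl⟩⟩,
      tri hb hAB hα hβ hp hq hr pq pr qr (a := s * (x r - x q)) (b := -(s * (x r - x p)))
        (c := s * (x q - x p)) (ρ := ρ)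
        ⟨fun h => mul_pos (sp.1 h) d2, fun h => mul_neg_of_neg_of_pos (sp.2 h) d2⟩
        ⟨fun h => neg_pos.2 (mul_neg_of_neg_of_pos (sq.1 h) d3),
          fun h => neg_neg_of_pos (mul_pos (sq.2 h) d3)⟩
        ⟨fun h => mul_pos (sr.1 h) d1, fun h => mul_neg_of_neg_of_pos (sr.2 h) d1⟩
        (hρ ▸ div_pos (mul_pos h3 (mul_pos d1 d2)) hn) (by ring) (ext2 ?_ ?_)
        (fun h => g1 (hs _ _ h)) g3 g2⟩
    · simp only [insert_subset_iff, singleton_subset_iff]
      exact ⟨hp, hq, hr⟩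
    · simp only [PiLp.add_apply, PiLp.sub_apply, PiLp.smul_apply, smul_eq_mul, PiLp.zero_apply]
      refine mul_left_cancel₀ hn.ne' ?_
      simp only [x, y] at hρ' ⊢
      linear_combination (-u) * hρ' + ρ * (u ^ 2 + v ^ 2) * hu
    · simp only [PiLp.add_apply, PiLp.sub_apply, PiLp.smul_apply, smul_eq_mul, PiLp.zero_apply]
      refine mul_left_cancel₀ hn.ne' ?_
      simp only [x, y] at hρ' ⊢
      linear_combination (-v) * hρ' + ρ * (u ^ 2 + v ^ 2) * hv
  have nA : ∀ p ∈ A, p ∉ B := fun p hp => disjoint_left.1 hAB hp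
  have hc2 : (K - #H - Δ) ^ 2 * (K - #H - Δ + 1 - 2 * Δ) ≤ 2 * M := by
    refine hc.trans (Nat.mul_le_mul_left _ ?_)
    rw [← card_union_of_disjoint (disjoint_left.2 fun t h1 h2 => nA _
      (mem_sdiff.1 (mem_product.1 (mem_filter.1 h2).1).1).1
      (mem_sdiff.1 (mem_product.1 (mem_filter.1 h1).1).1).1)]
    refine card_le_card_of_injOn (fun t => {t.2.1, t.1, t.2.2}) (fun t ht => ?_)
      fun t ht t' ht' h => ?_
    · rcases mem_union.1 (mem_coe.1 ht) with h | h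
      · simp only [mem_filter, mem_product, mem_sdiff] at h
        obtain ⟨⟨⟨m1, -⟩, ⟨m2, -⟩, ⟨m3, -⟩⟩, ⟨h1, g1⟩, ⟨h2, g2⟩, h3, g3⟩ := h
        exact mem_coe.2 (cell _ (mem_union_left _ m2) _ (mem_union_right _ m1) _
          (mem_union_left _ m3) h1 h2 1 ⟨fun _ => one_pos, fun h => absurd h (nA _ m2)⟩
          ⟨fun h => absurd m1 (nA _ h), fun _ => one_pos⟩
          ⟨fun _ => one_pos, fun h => absurd h (nA _ m3)⟩ (by linarith) g1 g2 g3)
      · simp only [mem_filter, mem_product, mem_sdiff] at h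
        obtain ⟨⟨⟨m1, -⟩, ⟨m2, -⟩, ⟨m3, -⟩⟩, ⟨h1, g1⟩, ⟨h2, g2⟩, h3, g3⟩ := h
        have e : ({t.2.1, t.1, t.2.2} : Finset P2) = {t.2.2, t.1, t.2.1} := by
          rw [insert_comm, pair_comm, insert_comm]
        refine mem_coe.2 ?_
        beta_reduce
        rw [e]
        exact cell _ (mem_union_right _ m3) _ (mem_union_left _ m1) _
          (mem_union_right _ m2) h2 h1 (-1) ⟨fun h => absurd m3 (nA _ h), fun _ => by norm_num⟩
          ⟨fun _ => by norm_num, fun h => absurd h (nA _ m1)⟩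
          ⟨fun h => absurd m2 (nA _ h), fun _ => by norm_num⟩ (by linarith) g2 g1
          (fun h => g3 (hs _ _ h))
    · have e : ∀ t : P2 × P2 × P2, ({t.2.1, t.1, t.2.2} : Finset P2) = {t.2.2, t.1, t.2.1} :=
        fun t => by rw [insert_comm, pair_comm, insert_comm]
      beta_reduce at h
      rcases mem_union.1 (mem_coe.1 ht) with k | k <;>
        rcases mem_union.1 (mem_coe.1 ht') with k' | k' <;>
        simp only [mem_filter, mem_product, mem_sdiff] at k k'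
      · obtain ⟨a1, a2, a3⟩ := sorted_inj k.2.1.1 k.2.2.1.1 k'.2.1.1 k'.2.2.1.1 h
        exact Prod.ext a2 (Prod.ext a1 a3)
      · obtain ⟨-, a2, -⟩ := sorted_inj k.2.1.1 k.2.2.1.1 k'.2.2.1.1 k'.2.1.1 (h.trans (e t'))
        exact absurd k.1.1.1 (nA _ (a2 ▸ k'.1.1.1))
      · obtain ⟨-, a2, -⟩ := sorted_inj k.2.2.1.1 k.2.1.1 k'.2.1.1 k'.2.2.1.1 ((e t).symm.trans h)
        exact absurd k'.1.1.1 (nA _ (a2 ▸ k.1.1.1))
      · obtain ⟨a1, a2, a3⟩ := sorted_inj k.2.2.1.1 k.2.1.1 k'.2.2.1.1 k'.2.1.1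
          ((e t).symm.trans (h.trans (e t')))
        exact Prod.ext a2 (Prod.ext a3 a1)
  exact pair_num hθ hθ' hHg hc2

end Pool.Agent.MP_ff3a4f_co.Pl
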