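import Pool.Agent.MP_ff3a4f_co.Kirchberger

/-!
# The sharp constant in the plane: statements of the parts
-/

set_option autoImplicit false

namespace Pool.Agent.MP_ff3a4f_co.Pl

open Finset Pool.Agent.MP_ff3a4f_co.Kirchberger
open scoped Classical

/-- The plane. -/
abbrev P2 : Type := EuclideanSpace ℝ (Fin 2)

/-- `S` is not separated according to the colouring. -/
def Bad (A B S : Finset P2) : Prop := ¬ Separated (A ∩ S) (B ∩ S)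

/-- Edges of a bipartite graph come in at times `τ`.  If `K` vertices on each side end with degree
at least `K`, then at least `K ^ 2` edges are among the first `K` at both ends. -/
def GraphS : Prop :=
  ∀ (ι : Type) (A B : Finset ι) (R : ι → ι → Prop) (τ : ι → ι → ℝ) (K : ℕ),
    K ≤ #{a ∈ A | K ≤ #{b ∈ B | R a b}} → K ≤ #{b ∈ B | K ≤ #{a ∈ A | R a b}} →
    K ^ 2 ≤ #{e ∈ A ×ˢ B | R e.1 e.2 ∧ #{a ∈ A | R a e.2 ∧ τ a e.2 < τ e.1 e.2} < K ∧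
      #{b ∈ B | R e.1 b ∧ τ e.1 b < τ e.1 e.2} < K}

/-- Births `Rs`, deaths `Ls`; cells `(x, a)` with `x` born before `a` dies, outside `Γ`. -/
def YoungS : Prop :=
  ∀ (ι : Type) (Rs Ls Q : Finset ι) (τ : ι → ℝ) (Γ : ι → ι → Prop) (K Δ : ℕ),
    Set.InjOn τ Rs → Set.InjOn τ Ls →
    (∀ x ∈ Rs, #{a ∈ Ls | Γ x a} ≤ Δ) → (∀ a ∈ Ls, #{x ∈ Rs | Γ x a} ≤ Δ) → Q ⊆ Rs →
    (∀ x ∈ Q, #{y ∈ Rs | τ y < τ x} < K ∧
      K ≤ #{a ∈ Ls | τ x < τ a} + #{y ∈ Rs | τ y < τ x}) →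
    #Q * (K + 1) ≤ 2 * #{e ∈ Rs ×ˢ Ls | τ e.1 < τ e.2 ∧ ¬ Γ e.1 e.2} + 2 * Δ * #Q

/-- Five points in general position have at most two bad four-point subsets. -/
def TwoS : Prop :=
  ∀ A B F : Finset P2, Disjoint A B → GeneralPosition (A ∪ B) → F ⊆ A ∪ B → #F = 5 →
    ∀ p ∈ F, ∀ q ∈ F, ∀ r ∈ F, p ≠ q → p ≠ r → q ≠ r →
      Bad A B (F.erase p) → Bad A B (F.erase q) → Bad A B (F.erase r) → False

/-- Five points with a conforming affine dependency have at least two bad four-point subsets. -/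
def BothS : Prop :=
  ∀ (A B F : Finset P2) (w : P2 → ℝ), Disjoint A B → F ⊆ A ∪ B → #F = 5 →
    (∀ p ∈ F, p ∈ A → 0 < w p) → (∀ p ∈ F, p ∈ B → w p < 0) →
    ∑ p ∈ F, w p = 0 → ∑ p ∈ F, w p • p = 0 →
    ∀ α ∈ F, ∀ β ∈ F, α ≠ β → (∀ p ∈ F, p ≠ α → p ≠ β → ¬ Bad A B (F.erase p)) →
      Bad A B (F.erase α)

/-- Double counting of triples that are bad with both `α` and `β`. -/
def SumS : Prop :=
  ∀ (ι : Type) [DecidableEq ι] (X A B : Finset ι) (bad : Finset ι → Prop), Disjoint A B → A ⊆ X → B ⊆ X →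
    (∀ F ⊆ X, #F = 5 → ∀ p ∈ F, ∀ q ∈ F, ∀ r ∈ F, p ≠ q → p ≠ r → q ≠ r →
      bad (F.erase p) → bad (F.erase q) → bad (F.erase r) → False) →
    4 * ∑ α ∈ A, ∑ β ∈ B, #{T ∈ X.powersetCard 3 | α ∉ T ∧ β ∉ T ∧ bad (insert α T) ∧
      bad (insert β T)} ≤ #X * #{S ∈ X.powersetCard 4 | bad S}

/-- Few pairs are bad together with `α` and `β`. -/
def GamS : Prop :=
  ∀ (ι : Type) [DecidableEq ι] (X A B : Finset ι) (bad : Finset ι → Prop), A ⊆ X → B ⊆ X →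
    (∀ S ⊆ X, #S ≤ 3 → ¬ bad S) →
    ∑ α ∈ A, ∑ β ∈ B, #{e ∈ X ×ˢ X | bad {e.1, e.2, α, β}} ≤
      256 * #{S ∈ X.powersetCard 4 | bad S}

/-- The construction. -/
def LowS : Prop :=
  ∀ K N : ℕ, 1 ≤ K → 3 * K ≤ N → ∃ A B : Finset P2, Disjoint A B ∧ #A = N ∧ #B = N ∧
    GeneralPosition (A ∪ B) ∧
    (2 * N).choose 4 ≤ #(goodSets A B) + K ^ 2 * (K + 1) * N + (3 * K) ^ 4 ∧
    ∀ A' ⊆ A, ∀ B' ⊆ B, Separated A' B' → #A' + K ≤ N ∨ #B' + K ≤ N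

/-- The bound for one pair `α`, `β`. -/
def PairS : Prop :=
  ∀ (A B : Finset P2) (K : ℕ) (θ : ℝ), 0 < θ → θ ≤ 1 / 9 → Disjoint A B →
    GeneralPosition (A ∪ B) →
    (∀ A' ⊆ A, ∀ B' ⊆ B, Separated A' B' → #A' + K ≤ #A ∨ #B' + K ≤ #B) →
    ∀ α ∈ A, ∀ β ∈ B,
      (1 - 9 * θ) * (K : ℝ) ^ 3 ≤
        2 * (#{T ∈ (A ∪ B).powersetCard 3 | α ∉ T ∧ β ∉ T ∧ Bad A B (insert α T) ∧
          Bad A B (insert β T)} : ℝ) +
        K / θ ^ 2 * (#{e ∈ (A ∪ B) ×ˢ (A ∪ B) | Bad A B {e.1, e.2, α, β}} : ℝ)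

end Pool.Agent.MP_ff3a4f_co.Pl
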